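import Pool.Agent.Common_CookLevin.Micro

/-!
# Only finitely many colours occur in a tableau
-/

namespace Pool.Agent.Common_CookLevin

open Turing Function

section FinColr

variable {K : Type} [DecidableEq K] [Fintype K] {Γ : K → Type} {Λ σ : Type} [Fintype Λ] [Fintype σ]

/-- the statements that can occur -/
def stmtSet (M : Λ → TM2.Stmt Γ Λ σ) : Set (TM2.Stmt Γ Λ σ) :=
  {q | q = .halt ∨ ∃ l, q ∈ TM2.stmts₁ (M l)}

omit [DecidableEq K] [Fintype K] [Fintype σ] in
theorem stmtSet_finite (M : Λ → TM2.Stmt Γ Λ σ) : (stmtSet M).Finite := by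
  have h : stmtSet M ⊆ {TM2.Stmt.halt} ∪ ⋃ l, (↑(TM2.stmts₁ (M l)) : Set (TM2.Stmt Γ Λ σ)) := by
    rintro q (h | ⟨l, h⟩)
    · exact Or.inl h
    · exact Or.inr (Set.mem_iUnion.2 ⟨l, h⟩)
  exact ((Set.finite_singleton _).union (Set.finite_iUnion fun l => Finset.finite_toSet _)).subset h

omit [DecidableEq K] [Fintype K] [Fintype Λ] [Fintype σ] in
theorem stmtSet_self (M : Λ → TM2.Stmt Γ Λ σ) (l : Λ) : M l ∈ stmtSet M :=
  Or.inr ⟨l, TM2.stmts₁_self⟩

omit [DecidableEq K] [Fintype K] [Fintype Λ] [Fintype σ] in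
theorem stmtSet_sub (M : Λ → TM2.Stmt Γ Λ σ) {q q' : TM2.Stmt Γ Λ σ} (h : q ∈ stmtSet M)
    (h0 : q ≠ .halt) (h' : q' ∈ TM2.stmts₁ q) : q' ∈ stmtSet M := by
  rcases h with h | ⟨l, h⟩
  · exact absurd h h0
  · exact Or.inr ⟨l, TM2.stmts₁_trans h h'⟩

omit [DecidableEq K] [Fintype K] [Fintype Λ] [Fintype σ] in
theorem nextCtl_mem (M : Λ → TM2.Stmt Γ Λ σ) (v : σ) (top : ∀ k, Option (Γ k))
    {q : TM2.Stmt Γ Λ σ} (h : q ∈ stmtSet M) : (nextCtl M v top q).1 ∈ stmtSet M := by
  cases q with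
  | push k f q => exact stmtSet_sub M h (by simp) (by simp [nextCtl, TM2.stmts₁, TM2.stmts₁_self])
  | peek k f q => exact stmtSet_sub M h (by simp) (by simp [nextCtl, TM2.stmts₁, TM2.stmts₁_self])
  | pop k f q => exact stmtSet_sub M h (by simp) (by simp [nextCtl, TM2.stmts₁, TM2.stmts₁_self])
  | load a q => exact stmtSet_sub M h (by simp) (by simp [nextCtl, TM2.stmts₁, TM2.stmts₁_self])
  | branch f q₁ q₂ =>
    refine stmtSet_sub M h (by simp) ?_
    simp only [nextCtl]
    cases f v <;> simp [TM2.stmts₁, TM2.stmts₁_self]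
  | goto f => exact stmtSet_self M _
  | halt => exact Or.inl rfl

/-- the letter pushed by a statement -/
def pushed : TM2.Stmt Γ Λ σ × σ → Option (Σ k, Γ k)
  | (.push k f _, v) => some ⟨k, f v⟩
  | _ => none

/-- the letters that can occur -/
def letterSet (M : Λ → TM2.Stmt Γ Λ σ) (I : Set (Σ k, Γ k)) : Set (Σ k, Γ k) :=
  {x | x ∈ I ∨ ∃ s ∈ stmtSet M, ∃ v, pushed (s, v) = some x}

omit [DecidableEq K] [Fintype K] in
theorem letterSet_finite (M : Λ → TM2.Stmt Γ Λ σ) {I : Set (Σ k, Γ k)} (hI : I.Finite) :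
    (letterSet M I).Finite := by
  have h1 : ((fun x => pushed x) '' (stmtSet M ×ˢ (Set.univ : Set σ))).Finite :=
    ((stmtSet_finite M).prod Set.finite_univ).image _
  have h2 : (some ⁻¹' ((fun x => pushed x) '' (stmtSet M ×ˢ (Set.univ : Set σ)))).Finite :=
    h1.preimage (Option.some_injective _).injOn
  refine (hI.union h2).subset ?_
  rintro x (h | ⟨s, hs, v, h⟩)
  · exact Or.inl h
  · exact Or.inr ⟨(s, v), ⟨hs, trivial⟩, h⟩

/-- the colours that can occur -/
def colrSet (M : Λ → TM2.Stmt Γ Λ σ) (I : Set (Σ k, Γ k)) : Set (Colr Γ Λ σ) :=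
  {x | x.q ∈ stmtSet M ∧ ∀ k g, x.ct k = some g → (⟨k, g⟩ : Σ k, Γ k) ∈ letterSet M I}

omit [DecidableEq K] in
theorem colrSet_finite (M : Λ → TM2.Stmt Γ Λ σ) {I : Set (Σ k, Γ k)} (hI : I.Finite) :
    (colrSet M I).Finite := by
  have : Finite (stmtSet M) := stmtSet_finite M
  have hG : ∀ k, Finite {g : Γ k // (⟨k, g⟩ : Σ k, Γ k) ∈ letterSet M I} := by
    intro k
    exact (letterSet_finite M hI).preimage (sigma_mk_injective.injOn)
  let F : (Bool × stmtSet M × σ × (∀ k, Option {g : Γ k // (⟨k, g⟩ : Σ k, Γ k) ∈ letterSet M I})) →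
      Colr Γ Λ σ := fun x => ⟨x.1, x.2.1, x.2.2.1, fun k => (x.2.2.2 k).map Subtype.val⟩
  refine (Set.finite_range F).subset ?_
  rintro ⟨b, q, v, ct⟩ ⟨hq, hct⟩
  have h : ∀ k, ∃ o : Option {g : Γ k // (⟨k, g⟩ : Σ k, Γ k) ∈ letterSet M I},
      o.map Subtype.val = ct k := by
    intro k
    cases hk : ct k with
    | none => exact ⟨none, rfl⟩
    | some g => exact ⟨some ⟨g, hct k g hk⟩, rfl⟩
  choose o ho using h
  refine ⟨⟨b, ⟨q, hq⟩, v, o⟩, ?_⟩
  simp only [F]
  congr 1
  funext k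
  exact ho k

omit [Fintype K] [Fintype Λ] [Fintype σ] in
theorem rule_mem (M : Λ → TM2.Stmt Γ Λ σ) (I : Set (Σ k, Γ k)) {a b d e : Colr Γ Λ σ}
    (ha : a ∈ colrSet M I) (hb : b ∈ colrSet M I) (hd : d ∈ colrSet M I)
    (he : e ∈ colrSet M I) : rule M a b d e ∈ colrSet M I := by
  unfold rule
  by_cases h : b.isFirst = true
  · rw [if_pos h]
    exact ⟨nextCtl_mem M _ _ hb.1, by intro k g hg; cases hg⟩
  · rw [if_neg h]
    refine ⟨he.1, ?_⟩
    intro k g hg
    obtain ⟨hq, hb2⟩ := hb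
    change nextCt b.v a.isFirst a.ct b.ct d.ct b.q k = some g at hg
    revert hg hq
    cases b.q with
    | push k' f q =>
      intro hq hg
      simp only [nextCt] at hg
      by_cases hk : k = k'
      · subst hk
        rw [update_self] at hg
        by_cases hf : a.isFirst = true
        · rw [if_pos hf] at hg
          refine Or.inr ⟨_, hq, b.v, ?_⟩
          simp only [pushed]
          rw [Option.some.inj hg]
        · rw [if_neg hf] at hg
          exact ha.2 k g hg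
      · rw [update_of_ne hk] at hg
        exact hb2 k g hg
    | pop k' f q =>
      intro hq hg
      simp only [nextCt] at hg
      by_cases hk : k = k'
      · subst hk
        rw [update_self] at hg
        exact hd.2 k g hg
      · rw [update_of_ne hk] at hg
        exact hb2 k g hg
    | _ =>
      intro hq hg
      exact hb2 k g hg

end FinColr

end Pool.Agent.Common_CookLevin
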