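import Pool.Agent.Common_CookLevin.Tableau
import Pool.Agent.Common_CookLevin.FinColr

/-!
# The Cook–Levin theorem

Every language in NP is polynomial-time many-one reducible to the satisfiability problem for
formulas in conjunctive normal form.
-/

namespace Pool.Agent.Common_CookLevin

open Turing Function Computability Pool.Agent.Helper32_Poly Pool.Agent.Helper32_HCK

section Machine

variable (tm : FinTM2) {B : Type} [Fintype B] (e₀ : tm.Γ tm.k₀ ≃ Bool ⊕ B)
  (e₁ : tm.Γ tm.k₁ ≃ Bool)

/-- the letters of the input stack -/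
def inLetters : Set (Σ k, tm.Γ k) := Set.range fun g : tm.Γ tm.k₀ => ⟨tm.k₀, g⟩

theorem inLetters_finite : (inLetters tm).Finite := by
  have : Fintype (tm.Γ tm.k₀) := tm.Γk₀Fin
  exact Set.finite_range _

/-- the colours -/
abbrev TCol : Type := colrSet tm.m (inLetters tm)

instance : Finite (TCol tm) := by
  have : Fintype tm.K := tm.kFin
  have : Fintype tm.Λ := tm.ΛFin
  have : Fintype tm.σ := tm.σFin
  exact colrSet_finite tm.m (inLetters_finite tm)

/-- the local rule -/
def tRuleFn (a b d e : TCol tm) : TCol tm :=
  letI := tm.kDecidableEq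
  ⟨rule tm.m a.1 b.1 d.1 e.1, rule_mem tm.m _ a.2 b.2 d.2 e.2⟩

/-- the blank colour -/
def tBlank : TCol tm := ⟨⟨false, tm.m tm.main, tm.initialState, fun _ => none⟩,
  stmtSet_self tm.m tm.main, by intro k g h; cases h⟩

/-- the colour of the first cell of the first row -/
def tStart : TCol tm := ⟨⟨true, tm.m tm.main, tm.initialState, fun _ => none⟩,
  stmtSet_self tm.m tm.main, by intro k g h; cases h⟩

/-- the colour of a cell of the first row containing the letter `g` -/
def tLetter (g : tm.Γ tm.k₀) : TCol tm :=
  letI := tm.kDecidableEq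
  ⟨⟨false, tm.m tm.main, tm.initialState, update (fun _ => none) tm.k₀ (some g)⟩,
    stmtSet_self tm.m tm.main, by
      intro k g' h
      by_cases hk : k = tm.k₀
      · subst hk
        exact Or.inl ⟨g', rfl⟩
      · simp only [Function.update_of_ne hk] at h
        cases h⟩

/-- the accepting colours -/
def tAcc : Set (TCol tm) := {x | x.1.ct tm.k₁ = some (e₁.symm true)}

theorem tLetter_ne (g : tm.Γ tm.k₀) : tLetter tm g ≠ tBlank tm := by
  let _ := tm.kDecidableEq
  intro h
  have h1 := congrArg (fun x : TCol tm => x.1.ct tm.k₀) h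
  simp [tLetter, tBlank] at h1

/-- the initial configuration -/
def cfg0 (s : List (tm.Γ tm.k₀)) : MCfg tm.Γ tm.Λ tm.σ :=
  letI := tm.kDecidableEq
  ⟨tm.m tm.main, tm.initialState, update (fun _ => []) tm.k₀ s⟩

theorem row_cfg0 (s : List (tm.Γ tm.k₀)) (q : ℕ) :
    rowCol (cfg0 tm s) (q + 1) = ((s[q]?.map (tLetter tm)).getD (tBlank tm)).1 := by
  let _ := tm.kDecidableEq
  have h : (fun k => ((update (fun _ => []) tm.k₀ s : ∀ k, List (tm.Γ k)) k)[q]?) =
      update (fun _ => none) tm.k₀ s[q]? := by
    funext k
    by_cases hk : k = tm.k₀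
    · subst hk
      simp
    · simp [hk]
  have h1 : rowCol (cfg0 tm s) (q + 1) = ⟨false, tm.m tm.main, tm.initialState,
    (fun k => ((update (fun _ => []) tm.k₀ s : ∀ k, List (tm.Γ k)) k)[q]?)⟩ := rfl
  rw [h1, h]
  cases hs : s[q]? with
  | none =>
    have h2 : update (fun _ => none) tm.k₀ (none : Option (tm.Γ tm.k₀)) =
      (fun _ => none : ∀ k, Option (tm.Γ k)) := Function.update_eq_self _ _
    rw [h2]
    rfl
  | some g => rfl

omit [Fintype B] in
/-- the tableau for a machine which computes `b` -/
theorem tableau_acc (w : List Bool) (cert : List B) (b : Bool) (N T : ℕ) (D : ℕ)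
    (hD : letI := tm.ΛFin; D = ∑ l, depth (tm.m l))
    (R : ℕ) (hcert : cert.length ≤ N) (hT : R * D < T)
    (hW : 2 ≤ w.length + N + T + 1)
    (h : TM2OutputsInTime tm (((w.map Sum.inl ++ cert.map Sum.inr)).map e₀.symm)
      (some [e₁.symm b]) R) :
    tabSeq (w.length + N + T + 1) hW (tRuleFn tm)
      (firstRow (tBlank tm) (tStart tm) (tBlank tm) (fun b => tLetter tm (e₀.symm (.inl b)))
        (fun b => tLetter tm (e₀.symm (.inr b))) w cert)
      (w.length + N + T + 1 + ((w.length + N + T + 1) ^ 2 + 2)) ∈ tAcc tm e₁ ↔ b = true := by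
  let _ := tm.kDecidableEq
  let _ := tm.ΛFin
  set W := w.length + N + T + 1 with hWdef
  set s := ((w.map Sum.inl ++ cert.map Sum.inr)).map e₀.symm with hs
  -- the run
  obtain ⟨⟨steps, hsteps⟩, hle⟩ := h
  have h1 : (flip bind (TM2.step tm.m))^[steps] (some (initList tm s)) =
    some (haltList tm [e₁.symm b]) := hsteps
  obtain ⟨n0, hn0, hrun⟩ := steps_micro tm.m steps _ _ h1
  rw [initList_eq, haltList_eq] at hrun
  have hn0T : n0 ≤ R * D := by
    rw [hD]
    exact hn0.trans (Nat.mul_le_mul_right _ hle)
  have hrun' : (micro tm.m)^[n0] (cfg0 tm s) =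
    ⟨.halt, tm.initialState, update (fun _ => []) tm.k₁ [e₁.symm b]⟩ := hrun
  have hafter : ∀ t, n0 ≤ t → (micro tm.m)^[t] (cfg0 tm s) =
      ⟨.halt, tm.initialState, update (fun _ => []) tm.k₁ [e₁.symm b]⟩ := by
    intro t ht
    obtain ⟨r, rfl⟩ := Nat.exists_eq_add_of_le ht
    rw [Nat.add_comm, Function.iterate_add_apply, hrun', micro_halt]
  have hslen : s.length = w.length + cert.length := by simp [hs]
  have hlen0 : ∀ k, ((cfg0 tm s).S k).length ≤ w.length + N := by
    intro k
    change (update (fun _ => []) tm.k₀ s k).length ≤ _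
    by_cases hk : k = tm.k₀
    · subst hk
      rw [update_self]
      omega
    · rw [update_of_ne hk]
      simp
  have hlen : ∀ t k, (((micro tm.m)^[t] (cfg0 tm s)).S k).length ≤ W - 1 := by
    intro t k
    have h2 : ∀ t, t ≤ n0 → (((micro tm.m)^[t] (cfg0 tm s)).S k).length ≤ W - 1 := by
      intro t ht
      have := micro_iter_length tm.m (cfg0 tm s) k t
      have := hlen0 k
      omega
    by_cases ht : t ≤ n0
    · exact h2 t ht
    · rw [hafter t (by omega), ← hafter n0 (le_refl _)]
      exact h2 n0 (le_refl _)
  have hsim := tableau_sim tm.m W hW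
    (fun p => (tabSeq W hW (tRuleFn tm)
      (firstRow (tBlank tm) (tStart tm) (tBlank tm) (fun b => tLetter tm (e₀.symm (.inl b)))
        (fun b => tLetter tm (e₀.symm (.inr b))) w cert) p).1)
    (by
      intro p
      rw [tabSeq_rec]
      rfl)
    (cfg0 tm s)
    (by
      intro i hi
      rw [tabSeq_le hW _ _ (by omega)]
      cases i with
      | zero => rfl
      | succ i =>
        rw [row_cfg0, show 1 + (i + 1) = i + 2 by ring, firstRow_add_two]
        by_cases c : i < w.length
        · rw [dif_pos c]
          have : s[i]? = some (e₀.symm (.inl w[i])) := by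
            rw [hs, List.getElem?_map, List.getElem?_append_left (by simpa using c),
              List.getElem?_map, List.getElem?_eq_getElem c]
            rfl
          rw [this]
          rfl
        · rw [dif_neg c]
          have : s[i]? = cert[i - w.length]?.map (fun b => e₀.symm (.inr b)) := by
            rw [hs, List.getElem?_map, List.getElem?_append_right (by simp; omega),
              List.getElem?_map, List.length_map, Option.map_map]
            rfl
          rw [this, Option.map_map]
          rfl)
    hlen (W + 1) 1 (by omega)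
  have e1 : 1 + (W + 1) * W + 1 = W + (W ^ 2 + 2) := by ring
  rw [e1, hafter (W + 1) (by omega)] at hsim
  have hmem : ∀ x : TCol tm, x ∈ tAcc tm e₁ ↔ x.1.ct tm.k₁ = some (e₁.symm true) :=
    fun x => Iff.rfl
  rw [hmem, hsim]
  change (update (fun _ => []) tm.k₁ [e₁.symm b] tm.k₁)[0]? = some (e₁.symm true) ↔ _
  rw [update_self]
  simp

end Machine

/-- **The Cook–Levin theorem.** -/
theorem sat_hard (L : Set (List Bool)) (h : InNP (languageProblem L)) :
    PolyReduces (languageProblem L) satProblem := by
  obtain ⟨B, hB, V, q, ⟨⟨⟨tm, e₀, e₁⟩, time, out⟩⟩, hL⟩ := h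
  simp only at out
  have : Fintype (TCol tm) := Fintype.ofFinite _
  let _ := tm.ΛFin
  let D := ∑ l, depth (tm.m l)
  let qT : Polynomial ℕ := time * (D : Polynomial ℕ) + 1
  let qM : Polynomial ℕ := (Polynomial.X + 1) ^ 2 + 2
  let f : List Bool → CNF := fun w => formula
    (tHead (tBlank tm) (tStart tm) (tAcc tm e₁))
    (tRow (tBlank tm) (fun b => tLetter tm (e₀.symm (.inl b)))
      (fun b => tLetter tm (e₀.symm (.inr b))))
    (tRule (tRuleFn tm)) (pad qM (pad qT (pad q w)))
  refine ⟨f, ?_, ?_⟩
  · have h1 := (((polyFn_pad (A := Bool) q).comp (polyFn_pad qT)).comp (polyFn_pad qM)).comp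
      (polyFn_formula
      (tHead (tBlank tm) (tStart tm) (tAcc tm e₁))
      (tRow (tBlank tm) (fun b => tLetter tm (e₀.symm (.inl b)))
        (fun b => tLetter tm (e₀.symm (.inr b))))
      (tRule (tRuleFn tm)))
    exact h1.computable (languageProblem L).enc satProblem.enc f (fun w => rfl)
  · intro w
    change List Bool at w
    rw [hL w]
    change (∃ c : List B, c.length ≤ q.eval w.length ∧ V (w, c) = true) ↔
      ∃ v, ∀ C ∈ formula _ _ _ (pad qM (pad qT (pad q w))), Sat v C
    have hlen1 : (pad q w).length = w.length + q.eval w.length := by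
      simp [pad]
    have hT : qT.eval (w.length + q.eval w.length) =
        time.eval (w.length + q.eval w.length) * D + 1 := by
      simp [qT]
    have hpad1 : pad qT (pad q w) = twoPad w (q.eval w.length)
        (time.eval (w.length + q.eval w.length) * D + 1) := by
      rw [pad, hlen1, hT]
      rfl
    have hpad2 : pad qM (pad qT (pad q w)) =
        (twoPad w (q.eval w.length)
        (time.eval (w.length + q.eval w.length) * D + 1)).map Sum.inl ++
        List.replicate ((w.length + q.eval w.length +
          (time.eval (w.length + q.eval w.length) * D + 1) + 1) ^ 2 + 2) (Sum.inr ()) := by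
      rw [hpad1, pad, twoPad_length]
      congr 2
      simp [qM]
    rw [hpad2, formula_sat _ _ _ _ _ _ _ w _ _ _ (Nat.succ_pos _) (by omega)
      (fun b => tLetter_ne tm _)]
    refine exists_congr fun c => and_congr_right fun hc => ?_
    have hout := out (w, c)
    have hl : ((languageProblem L).encPair (w, c)).length = w.length + c.length := by
      change (w.map Sum.inl ++ c.map Sum.inr).length = _
      rw [List.length_append, List.length_map, List.length_map]
    rw [hl] at hout
    have hR : time.eval (w.length + c.length) * D <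
        time.eval (w.length + q.eval w.length) * D + 1 :=
      Nat.lt_succ_of_le (Nat.mul_le_mul_right _ (poly_eval_mono time (by omega)))
    exact (tableau_acc tm e₀ e₁ w c (V (w, c)) (q.eval w.length) _ D rfl _ hc hR (by omega)
      hout).symm

/-- polynomial-time reductions compose -/
theorem PolyReduces.comp {P Q R : DecisionProblem} (h : PolyReduces P Q) (h' : PolyReduces Q R) :
    PolyReduces P R := by
  obtain ⟨f, ⟨hf⟩, hf'⟩ := h
  obtain ⟨g, ⟨hg⟩, hg'⟩ := h'
  exact ⟨g ∘ f, TM2ComputableInPolyTime.comp hf hg, fun x => (hf' x).trans (hg' (f x))⟩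

/-- A problem to which satisfiability is reducible is NP-hard. -/
theorem hard_of_sat {Q : DecisionProblem} (h : PolyReduces satProblem Q) (L : Set (List Bool))
    (hL : InNP (languageProblem L)) : PolyReduces (languageProblem L) Q :=
  PolyReduces.comp (sat_hard L hL) h

end Pool.Agent.Common_CookLevin
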