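import Mathlib

/-!
# Small steps of stack machines and their tableaux

`micro` performs one instruction of a `TM2` statement.  A configuration is written as a row of
coloured cells: cell `0` is marked, cell `i + 1` contains the `i`-th letters of all the stacks, and
every cell also contains the current statement and the internal memory.  The next row is
determined by the local rule `rule`.
-/

namespace Pool.Agent.Common_CookLevin

open Turing Function

section Micro

variable {K : Type} [DecidableEq K] {Γ : K → Type} {Λ σ : Type}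

/-- configurations: current statement, internal memory, stacks -/
structure MCfg (Γ : K → Type) (Λ σ : Type) where
  /-- current statement -/
  q : TM2.Stmt Γ Λ σ
  /-- internal memory -/
  v : σ
  /-- stacks -/
  S : ∀ k, List (Γ k)

/-- one instruction -/
def micro (M : Λ → TM2.Stmt Γ Λ σ) : MCfg Γ Λ σ → MCfg Γ Λ σ
  | ⟨.push k f q, v, S⟩ => ⟨q, v, update S k (f v :: S k)⟩
  | ⟨.peek k f q, v, S⟩ => ⟨q, f v (S k).head?, S⟩
  | ⟨.pop k f q, v, S⟩ => ⟨q, f v (S k).head?, update S k (S k).tail⟩
  | ⟨.load a q, v, S⟩ => ⟨q, a v, S⟩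
  | ⟨.branch f q₁ q₂, v, S⟩ => ⟨cond (f v) q₁ q₂, v, S⟩
  | ⟨.goto f, v, S⟩ => ⟨M (f v), v, S⟩
  | ⟨.halt, v, S⟩ => ⟨.halt, v, S⟩

/-- number of instructions on the longest path through a statement -/
def depth : TM2.Stmt Γ Λ σ → ℕ
  | .push _ _ q => depth q + 1
  | .peek _ _ q => depth q + 1
  | .pop _ _ q => depth q + 1
  | .load _ q => depth q + 1
  | .branch _ q₁ q₂ => max (depth q₁) (depth q₂) + 1
  | .goto _ => 1
  | .halt => 0

/-- the small step configuration belonging to a configuration of the machine -/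
def conv (M : Λ → TM2.Stmt Γ Λ σ) : TM2.Cfg Γ Λ σ → MCfg Γ Λ σ
  | ⟨some l, v, S⟩ => ⟨M l, v, S⟩
  | ⟨none, v, S⟩ => ⟨.halt, v, S⟩

theorem stepAux_micro (M : Λ → TM2.Stmt Γ Λ σ) : ∀ (q : TM2.Stmt Γ Λ σ) (v : σ)
    (S : ∀ k, List (Γ k)), ∃ n, n ≤ depth q ∧
      (micro M)^[n] ⟨q, v, S⟩ = conv M (TM2.stepAux q v S)
  | .push k f q, v, S => by
    obtain ⟨n, hn, h⟩ := stepAux_micro M q v (update S k (f v :: S k))
    exact ⟨n + 1, Nat.succ_le_succ hn, h⟩
  | .peek k f q, v, S => by
    obtain ⟨n, hn, h⟩ := stepAux_micro M q (f v (S k).head?) S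
    exact ⟨n + 1, Nat.succ_le_succ hn, h⟩
  | .pop k f q, v, S => by
    obtain ⟨n, hn, h⟩ := stepAux_micro M q (f v (S k).head?) (update S k (S k).tail)
    exact ⟨n + 1, Nat.succ_le_succ hn, h⟩
  | .load a q, v, S => by
    obtain ⟨n, hn, h⟩ := stepAux_micro M q (a v) S
    exact ⟨n + 1, Nat.succ_le_succ hn, h⟩
  | .branch f q₁ q₂, v, S => by
    cases hf : f v with
    | true =>
      obtain ⟨n, hn, h⟩ := stepAux_micro M q₁ v S
      refine ⟨n + 1, Nat.succ_le_succ (hn.trans (le_max_left _ _)), ?_⟩
      rw [Function.iterate_succ_apply]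
      simp only [micro, TM2.stepAux, hf, cond_true]
      exact h
    | false =>
      obtain ⟨n, hn, h⟩ := stepAux_micro M q₂ v S
      refine ⟨n + 1, Nat.succ_le_succ (hn.trans (le_max_right _ _)), ?_⟩
      rw [Function.iterate_succ_apply]
      simp only [micro, TM2.stepAux, hf, cond_false]
      exact h
  | .goto f, v, S => ⟨1, le_refl _, rfl⟩
  | .halt, v, S => ⟨0, le_refl _, rfl⟩

theorem iter_none' {α : Type} (f : α → Option α) (m : ℕ) :
    (flip bind f)^[m] (none : Option α) = none := by
  induction m with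
  | zero => rfl
  | succ m ih => rw [Function.iterate_succ_apply]; exact ih

theorem steps_micro [Fintype Λ] (M : Λ → TM2.Stmt Γ Λ σ) : ∀ (m : ℕ) (c c' : TM2.Cfg Γ Λ σ),
    (flip bind (TM2.step M))^[m] (some c) = some c' →
    ∃ n, n ≤ m * (∑ l, depth (M l)) ∧ (micro M)^[n] (conv M c) = conv M c'
  | 0, c, c', h => by
    have : some c = some c' := h
    cases this
    exact ⟨0, Nat.zero_le _, rfl⟩
  | m + 1, ⟨none, v, S⟩, c', h => by
    rw [Function.iterate_succ_apply] at h
    change (flip bind (TM2.step M))^[m] (none : Option (TM2.Cfg Γ Λ σ)) = some c' at h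
    rw [iter_none'] at h
    cases h
  | m + 1, ⟨some l, v, S⟩, c', h => by
    rw [Function.iterate_succ_apply] at h
    change (flip bind (TM2.step M))^[m] (some (TM2.stepAux (M l) v S)) = some c' at h
    obtain ⟨n, hn, h1⟩ := steps_micro M m _ _ h
    obtain ⟨n', hn', h2⟩ := stepAux_micro M (M l) v S
    refine ⟨n + n', ?_, ?_⟩
    · have : depth (M l) ≤ ∑ l, depth (M l) :=
        Finset.single_le_sum (f := fun l => depth (M l)) (fun _ _ => Nat.zero_le _)
          (Finset.mem_univ l)
      rw [Nat.add_mul, Nat.one_mul]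
      omega
    · rw [Function.iterate_add_apply]
      change (micro M)^[n] ((micro M)^[n'] ⟨M l, v, S⟩) = _
      rw [h2, h1]

theorem micro_halt (M : Λ → TM2.Stmt Γ Λ σ) (v : σ) (S : ∀ k, List (Γ k)) (n : ℕ) :
    (micro M)^[n] ⟨.halt, v, S⟩ = ⟨.halt, v, S⟩ := by
  induction n with
  | zero => rfl
  | succ n ih => rw [Function.iterate_succ_apply]; exact ih

theorem micro_length (M : Λ → TM2.Stmt Γ Λ σ) (c : MCfg Γ Λ σ) (k : K) :
    ((micro M c).S k).length ≤ (c.S k).length + 1 := by
  rcases c with ⟨q, v, S⟩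
  cases q with
  | push k' f q =>
    change (update S k' (f v :: S k') k).length ≤ (S k).length + 1
    by_cases h : k = k'
    · subst h; simp
    · simp [h]
  | pop k' f q =>
    change (update S k' (S k').tail k).length ≤ (S k).length + 1
    by_cases h : k = k'
    · subst h
      simp only [update_self, List.length_tail]
      omega
    · simp [h]
  | _ => exact Nat.le_succ _

theorem micro_iter_length (M : Λ → TM2.Stmt Γ Λ σ) (c : MCfg Γ Λ σ) (k : K) : ∀ n : ℕ,
    (((micro M)^[n] c).S k).length ≤ (c.S k).length + n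
  | 0 => le_refl _
  | n + 1 => by
    rw [Function.iterate_succ_apply']
    have h1 := micro_length M ((micro M)^[n] c) k
    have h2 := micro_iter_length M c k n
    omega

/-! ### Tableaux -/

/-- colours of the cells -/
structure Colr (Γ : K → Type) (Λ σ : Type) where
  /-- is it the first cell of its row? -/
  isFirst : Bool
  /-- current statement -/
  q : TM2.Stmt Γ Λ σ
  /-- internal memory -/
  v : σ
  /-- letters of the stacks -/
  ct : ∀ k, Option (Γ k)

/-- the next statement and the next internal memory -/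
def nextCtl (M : Λ → TM2.Stmt Γ Λ σ) (v : σ) (top : ∀ k, Option (Γ k)) :
    TM2.Stmt Γ Λ σ → TM2.Stmt Γ Λ σ × σ
  | .push _ _ q => (q, v)
  | .peek k f q => (q, f v (top k))
  | .pop k f q => (q, f v (top k))
  | .load a q => (q, a v)
  | .branch f q₁ q₂ => (cond (f v) q₁ q₂, v)
  | .goto f => (M (f v), v)
  | .halt => (.halt, v)

/-- the next letters of a cell; `a`, `b`, `d` are the letters of the left neighbour, of the cell
itself and of the right neighbour -/
def nextCt (v : σ) (isTop : Bool) (a b d : ∀ k, Option (Γ k)) :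
    TM2.Stmt Γ Λ σ → ∀ k, Option (Γ k)
  | .push k f _ => update b k (if isTop then some (f v) else a k)
  | .pop k _ _ => update b k (d k)
  | _ => b

/-- the local rule; `a`, `b`, `d` are the colours of the left neighbour, of the cell and of the
right neighbour; `e` is the new colour of the left neighbour -/
def rule (M : Λ → TM2.Stmt Γ Λ σ) (a b d e : Colr Γ Λ σ) : Colr Γ Λ σ :=
  if b.isFirst then ⟨true, (nextCtl M b.v d.ct b.q).1, (nextCtl M b.v d.ct b.q).2, fun _ => none⟩
  else ⟨false, e.q, e.v, nextCt b.v a.isFirst a.ct b.ct d.ct b.q⟩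

/-- the cells of the row of a configuration -/
def rowCol (c : MCfg Γ Λ σ) : ℕ → Colr Γ Λ σ
  | 0 => ⟨true, c.q, c.v, fun _ => none⟩
  | i + 1 => ⟨false, c.q, c.v, fun k => (c.S k)[i]?⟩

theorem rule_zero (M : Λ → TM2.Stmt Γ Λ σ) (c : MCfg Γ Λ σ) (a e : Colr Γ Λ σ) :
    rule M a (rowCol c 0) (rowCol c 1) e = rowCol (micro M c) 0 := by
  rcases c with ⟨q, v, S⟩
  cases q <;> simp [rule, rowCol, micro, nextCtl, List.head?_eq_getElem?]

theorem rule_succ (M : Λ → TM2.Stmt Γ Λ σ) (c : MCfg Γ Λ σ) (i : ℕ) (d : Colr Γ Λ σ)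
    (hd : ∀ k, d.ct k = (c.S k)[i + 1]?) :
    rule M (rowCol c i) (rowCol c (i + 1)) d (rowCol (micro M c) i) =
      rowCol (micro M c) (i + 1) := by
  have hd' : d.ct = fun k => (c.S k)[i + 1]? := funext hd
  have h1 : (rowCol (micro M c) i).q = (micro M c).q := by cases i <;> rfl
  have h2 : (rowCol (micro M c) i).v = (micro M c).v := by cases i <;> rfl
  have h3 : nextCt c.v (rowCol c i).isFirst (rowCol c i).ct (fun k => (c.S k)[i]?) d.ct c.q =
      fun k => ((micro M c).S k)[i]? := by
    rw [hd']
    rcases c with ⟨q, v, S⟩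
    cases q with
    | push k f q =>
      simp only [nextCt, micro]
      funext k'
      by_cases hk : k' = k
      · subst hk
        cases i with
        | zero => simp [rowCol]
        | succ i => simp [rowCol]
      · simp [hk]
    | pop k f q =>
      simp only [nextCt, micro]
      funext k'
      by_cases hk : k' = k
      · subst hk
        simp
      · simp [hk]
    | _ => simp only [nextCt, micro]
  have e1 : rule M (rowCol c i) (rowCol c (i + 1)) d (rowCol (micro M c) i) =
      ⟨false, (rowCol (micro M c) i).q, (rowCol (micro M c) i).v,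
        nextCt c.v (rowCol c i).isFirst (rowCol c i).ct (fun k => (c.S k)[i]?) d.ct c.q⟩ := rfl
  rw [e1, h1, h2, h3]
  rfl

theorem tableau_sim (M : Λ → TM2.Stmt Γ Λ σ) (W : ℕ) (hW : 2 ≤ W) (c : ℕ → Colr Γ Λ σ)
    (hrec : ∀ p, c (p + W + 1) = rule M (c p) (c (p + 1)) (c (p + 2)) (c (p + W)))
    (cfg : MCfg Γ Λ σ) (h0 : ∀ i < W, c (1 + i) = rowCol cfg i)
    (hlen : ∀ t k, (((micro M)^[t] cfg).S k).length ≤ W - 1) :
    ∀ t, ∀ i < W, c (1 + t * W + i) = rowCol ((micro M)^[t] cfg) i := by
  intro t
  induction t with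
  | zero =>
    intro i hi
    rw [Nat.zero_mul, Nat.add_zero]
    exact h0 i hi
  | succ t ih =>
    intro i
    rw [Function.iterate_succ_apply']
    induction i with
    | zero =>
      intro _
      have h1 := hrec (t * W)
      have h2 := ih 0 (by omega)
      have h3 := ih 1 (by omega)
      have e1 : t * W + 1 = 1 + t * W + 0 := by ring
      have e2 : t * W + 2 = 1 + t * W + 1 := by ring
      have e3 : t * W + W + 1 = 1 + (t + 1) * W + 0 := by ring
      rw [e1, e2, e3, h2, h3, rule_zero] at h1
      exact h1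
    | succ i ihi =>
      intro hi
      have h1 := hrec (t * W + i + 1)
      have h2 := ih i (by omega)
      have h3 := ih (i + 1) hi
      have h4 := ihi (by omega)
      have e1 : t * W + i + 1 = 1 + t * W + i := by ring
      have e2 : t * W + i + 1 + 1 = 1 + t * W + (i + 1) := by ring
      have e3 : t * W + i + 1 + W + 1 = 1 + (t + 1) * W + (i + 1) := by ring
      have e4 : t * W + i + 1 + W = 1 + (t + 1) * W + i := by ring
      rw [e3, e4, e2, e1, h2, h3, h4] at h1
      rw [h1]
      apply rule_succ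
      intro k
      by_cases hi2 : i + 2 < W
      · have h5 := ih (i + 2) hi2
        have e5 : 1 + t * W + i + 2 = 1 + t * W + (i + 2) := by ring
        rw [e5, h5]
        rfl
      · have hiW : i + 2 = W := by omega
        have h5 : c (1 + (t + 1) * W + 0) = rowCol (micro M ((micro M)^[t] cfg)) 0 := by
          have h1 := hrec (t * W)
          have h2 := ih 0 (by omega)
          have h3 := ih 1 (by omega)
          have e1 : t * W + 1 = 1 + t * W + 0 := by ring
          have e2 : t * W + 2 = 1 + t * W + 1 := by ring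
          have e3 : t * W + W + 1 = 1 + (t + 1) * W + 0 := by ring
          rw [e1, e2, e3, h2, h3, rule_zero] at h1
          exact h1
        have e5 : 1 + t * W + i + 2 = 1 + (t + 1) * W + 0 := by
          rw [Nat.add_mul]
          omega
        rw [e5, h5]
        have h6 := hlen t k
        have h7 : (((micro M)^[t] cfg).S k)[i + 1]? = none := by
          rw [List.getElem?_eq_none_iff]
          omega
        rw [h7]
        rfl

end Micro

end Pool.Agent.Common_CookLevin
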