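import Pool.Agent.Common_CookLevin.WordProg

/-!
# Padding

`pad q u` is the word `u` followed by `q (length of u)` marks, for a polynomial `q`; it is
computable in polynomial time.
-/

namespace Pool.Agent.Common_CookLevin

open Turing Function Computability Pool.Agent.Helper32_Poly

/-- word functions computable in polynomial time -/
def PolyFn {A B : Type} (f : List A → List B) : Prop :=
  Nonempty (TM2ComputableInPolyTime (id : List A → List A) (id : List B → List B) f)

theorem PolyFn.comp {A B C : Type} {f : List A → List B} {g : List B → List C} (hf : PolyFn f)
    (hg : PolyFn g) : PolyFn (fun w => g (f w)) := by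
  obtain ⟨hf⟩ := hf
  obtain ⟨hg⟩ := hg
  exact TM2ComputableInPolyTime.comp hf hg

/-- a function which acts on encodings like a polynomial time word function is computable in
polynomial time -/
theorem PolyFn.computable {A B : Type} {f : List A → List B} (hf : PolyFn f) {α β : Type}
    (ea : α → List A) (eb : β → List B) (F : α → β) (h : ∀ a, eb (F a) = f (ea a)) :
    Nonempty (TM2ComputableInPolyTime ea eb F) := by
  obtain ⟨⟨a, time, out⟩⟩ := hf
  refine ⟨⟨a, time, fun x => ?_⟩⟩
  have := out (ea x)
  simp only [id_eq] at this
  rw [h]
  exact this

theorem Prints.polyFn {A B X : Type} [DecidableEq X] [Fintype A] [Fintype B] [Fintype X] {x₀ : X}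
    {f : (X → List A) → List B} (hf : Prints {x₀} f) :
    PolyFn (fun w => f (update (fun _ => []) x₀ w)) :=
  hf.computable id id _ (fun _ => rfl)

/-- `u` followed by `q (length of u)` marks -/
def pad {A : Type} (q : Polynomial ℕ) (u : List A) : List (A ⊕ Unit) :=
  u.map Sum.inl ++ List.replicate (q.eval u.length) (Sum.inr ())

theorem polyFn_flatMap {A B : Type} [Fintype A] [Fintype B] (g : A → List B) :
    PolyFn (fun w => w.flatMap g) := by
  have h : Prints (X := Bool) {false} (fun e : Bool → List A => (e false).flatMap g) :=
    Prints.flatMap false true (by decide) (by simp) g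
  have h2 := h.polyFn
  simpa using h2

theorem polyFn_append {A B : Type} [Fintype A] [Fintype B] (g : A → List B) (u : List B) :
    PolyFn (fun w => w.flatMap g ++ u) := by
  have h : Prints (X := Bool) {false} (fun e : Bool → List A => (e false).flatMap g ++ u) :=
    (Prints.flatMap false true (by decide) (by simp) g).seq (Prints.word _ u)
  have h2 := h.polyFn
  simpa using h2

/-- multiply the number of marks by the number of other letters -/
def mulStage {A : Type} (v : List (A ⊕ Unit)) : List (A ⊕ Unit) :=
  v.flatMap (fun a => if a.isLeft then [a] else []) ++
    v.flatMap (fun a => if a.isLeft then v.flatMap (fun a => if a.isLeft then [] else [a]) else [])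

theorem polyFn_mulStage {A : Type} [Fintype A] : PolyFn (mulStage (A := A)) := by
  have h : Prints (X := Fin 3) {0} (fun e : Fin 3 → List (A ⊕ Unit) =>
      (e 0).flatMap (fun a => if a.isLeft then [a] else []) ++
      (e 0).flatMap (fun a => if a.isLeft then
        (e 0).flatMap (fun a => if a.isLeft then [] else [a]) else [])) := by
    refine (Prints.flatMap 0 1 (by decide) (by simp) _).seq ?_
    have h1 : ∀ a : A ⊕ Unit, Prints (X := Fin 3) (insert 1 {0})
        (fun e : Fin 3 → List (A ⊕ Unit) => if a.isLeft then
        (e 0).flatMap (fun a => if a.isLeft then [] else [a]) else []) := by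
      intro a
      by_cases ha : a.isLeft = true
      · simp only [ha, if_true]
        exact Prints.flatMap 0 2 (by decide) (by simp) _
      · simp only [ha]
        exact Prints.word _ []
    refine (Prints.each (s := {0}) (y := 0) (x := 1) (by decide) (by simp)
      (fun _ => false) h1).congr ?_
    intro e _
    have h2 : (fun (a : A ⊕ Unit) (u : List (A ⊕ Unit)) => if a.isLeft then
        (update e 1 u 0).flatMap (fun a => if a.isLeft then [] else [a]) else []) =
        fun a _ => if a.isLeft then
        (e 0).flatMap (fun a => if a.isLeft then [] else [a]) else [] := by
      funext a u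
      simp
    rw [h2, eachWord_const]
  have h2 := h.polyFn
  have h3 : mulStage (A := A) = fun w => (w.flatMap (fun a => if a.isLeft then [a] else []) ++
      w.flatMap (fun a => if a.isLeft then w.flatMap (fun a => if a.isLeft then [] else [a])
        else [])) := rfl
  rw [h3]
  simpa using h2

theorem polyFn_pad {A : Type} [Fintype A] (q : Polynomial ℕ) : PolyFn (pad (A := A) q) := by
  refine Polynomial.recOnHorner q ?_ ?_ ?_
  · have h : pad (A := A) 0 = fun w => w.flatMap (fun a => [Sum.inl a]) := by
      funext w
      simp only [pad, Polynomial.eval_zero, List.replicate_zero, List.append_nil]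
      induction w with
      | nil => rfl
      | cons a w ih => rw [List.map_cons, List.flatMap_cons, ih]; rfl
    rw [h]
    exact polyFn_flatMap _
  · intro p a _ _ hp
    have h : pad (A := A) (p + Polynomial.C a) = fun w =>
        (pad p w).flatMap (fun b => [b]) ++ List.replicate a (Sum.inr ()) := by
      funext w
      have e1 : ∀ v : List (A ⊕ Unit), v.flatMap (fun b => [b]) = v := by
        intro v
        induction v with
        | nil => rfl
        | cons a v ih => rw [List.flatMap_cons, ih]; rfl
      rw [e1]
      simp only [pad, Polynomial.eval_add, Polynomial.eval_C, List.append_assoc]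
      rw [← List.replicate_add]
    rw [h]
    exact hp.comp (polyFn_append (fun b => [b]) (List.replicate a (Sum.inr ())))
  · intro p _ hp
    have h : pad (A := A) (p * Polynomial.X) = fun w => mulStage (pad p w) := by
      funext w
      have e1 : ∀ n : ℕ, (List.replicate n (Sum.inr () : A ⊕ Unit)).flatMap
          (fun a => if a.isLeft then [a] else []) = [] := by
        intro n
        simp
      have e2 : ∀ n : ℕ, (List.replicate n (Sum.inr () : A ⊕ Unit)).flatMap
          (fun a => if a.isLeft then [] else [a]) = List.replicate n (Sum.inr ()) := by
        intro n
        induction n with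
        | zero => rfl
        | succ n ih => rw [List.replicate_succ, List.flatMap_cons, ih]; rfl
      have e3 : ∀ u : List A, (u.map (Sum.inl : A → A ⊕ Unit)).flatMap
          (fun a => if a.isLeft then [a] else []) = u.map Sum.inl := by
        intro u
        induction u with
        | nil => rfl
        | cons a u ih => rw [List.map_cons, List.flatMap_cons, ih]; rfl
      have e4 : ∀ u : List A, (u.map (Sum.inl : A → A ⊕ Unit)).flatMap
          (fun a => if a.isLeft then [] else [a]) = [] := by
        intro u
        induction u with
        | nil => rfl
        | cons a u ih => rw [List.map_cons, List.flatMap_cons, ih]; rfl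
      have e5 : ∀ (r : List (A ⊕ Unit)) (n : ℕ), (List.replicate n (Sum.inr () : A ⊕ Unit)).flatMap
          (fun a => if a.isLeft then r else []) = [] := by
        intro r n
        simp
      have e6 : ∀ (m : ℕ) (u : List A), (u.map (Sum.inl : A → A ⊕ Unit)).flatMap
          (fun a => if a.isLeft then List.replicate m (Sum.inr () : A ⊕ Unit) else []) =
            List.replicate (m * u.length) (Sum.inr () : A ⊕ Unit) := by
        intro m u
        induction u with
        | nil => rfl
        | cons a u ih =>
          rw [List.map_cons, List.flatMap_cons, ih]
          simp only [Sum.isLeft_inl, if_true, List.length_cons]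
          rw [← List.replicate_add]
          congr 1
          ring
      unfold mulStage
      simp only [pad, List.flatMap_append, e1, e2, e3, e4, e5, e6, List.append_nil,
        List.nil_append, Polynomial.eval_mul, Polynomial.eval_X]
    rw [h]
    exact hp.comp polyFn_mulStage

end Pool.Agent.Common_CookLevin
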