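import Pool.Agent.Common_CookLevin.Pad
import Pool.Agent.Helper32_HCK.Defs

/-!
# The satisfiability problem, and formulas given by templates
-/

namespace Pool.Agent.Common_CookLevin

open Turing Function Computability Pool.Agent.Helper32_Poly

/-- letters for writing down formulas -/
inductive CNFLetter
  | clause | pos | neg | tick
  deriving DecidableEq

instance : Fintype CNFLetter := ⟨{.clause, .pos, .neg, .tick}, by intro x; cases x <;> decide⟩

/-- A formula in conjunctive normal form: a list of clauses; a clause is a list of literals; the
literal `(i, true)` is the `i`-th variable and `(i, false)` its negation. -/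
abbrev CNF : Type := List (List (ℕ × Bool))

/-- The encoding of a formula: for each clause the letter `clause` followed by the encodings of its
literals; a literal is encoded by its sign and its index in unary. -/
def encodeCNF (F : CNF) : List CNFLetter :=
  F.flatMap fun C => .clause :: C.flatMap fun l =>
    (if l.2 then .pos else .neg) :: List.replicate l.1 .tick

/-- reading a letter of an encoded formula, from right to left -/
def decStep : CNFLetter → ℕ × List (ℕ × Bool) × CNF → ℕ × List (ℕ × Bool) × CNF
  | .tick, (k, c, F) => (k + 1, c, F)
  | .pos, (k, c, F) => (0, (k, true) :: c, F)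
  | .neg, (k, c, F) => (0, (k, false) :: c, F)
  | .clause, (_, c, F) => (0, [], c :: F)

theorem dec_ticks (c : List (ℕ × Bool)) (F : CNF) : ∀ (n : ℕ),
    (List.replicate n CNFLetter.tick).foldr decStep (0, c, F) = (n, c, F)
  | 0 => rfl
  | n + 1 => by
    rw [List.replicate_succ, List.foldr_cons, dec_ticks c F n]
    rfl

theorem dec_clause (F : CNF) : ∀ (C : List (ℕ × Bool)),
    (C.flatMap fun l => (if l.2 then CNFLetter.pos else .neg) ::
      List.replicate l.1 .tick).foldr decStep (0, [], F) = (0, C, F)
  | [] => rfl
  | l :: C => by
    rw [List.flatMap_cons, List.foldr_append, dec_clause F C, List.foldr_cons, dec_ticks]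
    rcases l with ⟨n, _ | _⟩ <;> rfl

theorem dec_encode : ∀ (F : CNF), (encodeCNF F).foldr decStep (0, [], []) = (0, [], F)
  | [] => rfl
  | C :: F => by
    have ih := dec_encode F
    unfold encodeCNF at ih ⊢
    rw [List.flatMap_cons, List.foldr_append, ih, List.foldr_cons, dec_clause]
    rfl

theorem encodeCNF_injective : Function.Injective encodeCNF := by
  intro F G h
  have h1 := dec_encode F
  rw [h, dec_encode G] at h1
  exact (Prod.mk.inj (Prod.mk.inj h1).2).2.symm

/-- Satisfiability of formulas in conjunctive normal form. -/
def satProblem : Pool.Agent.Helper32_HCK.DecisionProblem where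
  Inst := CNF
  Alph := CNFLetter
  alphFintype := inferInstance
  enc := encodeCNF
  enc_injective := encodeCNF_injective
  Yes := fun F => ∃ v : ℕ → Bool, ∀ C ∈ F, ∃ l ∈ C, v l.1 = l.2

/-! ### Templates -/

/-- a literal whose index is `a p + b m + g M + d` -/
structure LLit where
  /-- the sign -/
  sign : Bool
  /-- coefficient of the counter -/
  a : ℕ
  /-- coefficient of the number of letters -/
  b : ℕ
  /-- coefficient of the number of marks -/
  g : ℕ
  /-- constant -/
  d : ℕ

/-- the literal for given values of the parameters -/
def LLit.ev (p m M : ℕ) (l : LLit) : ℕ × Bool := (l.a * p + l.b * m + l.g * M + l.d, l.sign)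

/-- the formula for given values of the parameters -/
def tev (p m M : ℕ) (T : List (List LLit)) : CNF := T.map fun C => C.map (LLit.ev p m M)

/-- the formula belonging to a word of letters and marks -/
def formula {A : Type} (hd : List (List LLit)) (atL : A → List (List LLit))
    (atR : List (List LLit)) (v : List (A ⊕ Unit)) : CNF :=
  tev 0 (v.countP Sum.isLeft) (v.countP Sum.isRight) hd ++
    (eachWord Sum.isLeft (fun x u => tev u.length (v.countP Sum.isLeft) (v.countP Sum.isRight)
      (Sum.elim atL (fun _ => []) x)) [] v ++
    eachWord Sum.isRight (fun x u => tev u.length (v.countP Sum.isLeft) (v.countP Sum.isRight)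
      (Sum.elim (fun _ => []) (fun _ => atR) x)) [] v)

theorem flatMap_replicate_const {A : Type} (t : CNFLetter) (a : ℕ) (l : List A) :
    l.flatMap (fun _ => List.replicate a t) = List.replicate (a * l.length) t := by
  induction l with
  | nil => rfl
  | cons x l ih =>
    rw [List.flatMap_cons, ih, ← List.replicate_add]
    congr 1
    rw [List.length_cons]
    ring

theorem flatMap_replicate_sum {A : Type} (t : CNFLetter) (b g : ℕ) (l : List (A ⊕ Unit)) :
    l.flatMap (fun x => if x.isLeft then List.replicate b t else List.replicate g t) =
      List.replicate (b * l.countP Sum.isLeft + g * l.countP Sum.isRight) t := by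
  induction l with
  | nil => rfl
  | cons x l ih =>
    rw [List.flatMap_cons, ih]
    cases x with
    | inl x =>
      simp only [Sum.isLeft_inl, if_true, List.countP_cons, Sum.isRight_inl]
      rw [← List.replicate_add]
      congr 1
      simp
      ring
    | inr x =>
      simp only [Sum.isLeft_inr, List.countP_cons, Sum.isRight_inr]
      simp only [Bool.false_eq_true, if_false, if_true, Nat.add_zero]
      rw [← List.replicate_add]
      congr 1
      ring

section Print

variable {A : Type} [Fintype A]

theorem prints_lit (s : Set (Fin 3)) (h2 : (2 : Fin 3) ∉ s) (l : LLit) :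
    Prints (X := Fin 3) s (fun e : Fin 3 → List (A ⊕ Unit) =>
      (if l.sign then CNFLetter.pos else .neg) :: List.replicate
        (LLit.ev (e 1).length ((e 0).countP Sum.isLeft) ((e 0).countP Sum.isRight) l).1 .tick) := by
  refine ((((Prints.word s [if l.sign then CNFLetter.pos else .neg]).seq
    (Prints.flatMap 1 2 (by decide) h2 (fun _ => List.replicate l.a .tick))).seq
    (Prints.flatMap 0 2 (by decide) h2 (fun x => if x.isLeft then List.replicate l.b .tick else
      List.replicate l.g .tick))).seq (Prints.word s (List.replicate l.d .tick))).congr ?_
  intro e _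
  rw [flatMap_replicate_const, flatMap_replicate_sum]
  simp only [LLit.ev, List.append_assoc, List.cons_append, List.nil_append]
  congr 1
  rw [← List.replicate_add, ← List.replicate_add]
  congr 1
  ring

theorem prints_tev (s : Set (Fin 3)) (h2 : (2 : Fin 3) ∉ s) (T : List (List LLit)) :
    Prints (X := Fin 3) s (fun e : Fin 3 → List (A ⊕ Unit) =>
      encodeCNF (tev (e 1).length ((e 0).countP Sum.isLeft) ((e 0).countP Sum.isRight) T)) := by
  have h : Prints (X := Fin 3) s (fun e : Fin 3 → List (A ⊕ Unit) =>
      T.flatMap fun C => [CNFLetter.clause] ++ C.flatMap fun l =>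
        ((if l.sign then CNFLetter.pos else .neg) :: List.replicate
        (LLit.ev (e 1).length ((e 0).countP Sum.isLeft) ((e 0).countP Sum.isRight) l).1 .tick)) := by
    refine Prints.list T (fun C _ => ?_)
    refine (Prints.word s [CNFLetter.clause]).seq ?_
    exact Prints.list C (fun l _ => prints_lit s h2 l)
  refine h.congr ?_
  intro e _
  unfold encodeCNF tev
  rw [List.flatMap_map]
  congr 1
  funext C
  rw [List.flatMap_map]
  rfl

theorem encodeCNF_append (F G : CNF) : encodeCNF (F ++ G) = encodeCNF F ++ encodeCNF G := by
  unfold encodeCNF
  rw [List.flatMap_append]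

theorem encodeCNF_eachWord {B : Type} (c : B → Bool) (f : B → List B → CNF) :
    ∀ (u w : List B), encodeCNF (eachWord c f u w) = eachWord c (fun a u => encodeCNF (f a u)) u w
  | _, [] => rfl
  | u, a :: l => by
    rw [eachWord, eachWord, encodeCNF_append, encodeCNF_eachWord c f _ l]

theorem polyFn_formula (hd : List (List LLit)) (atL : A → List (List LLit))
    (atR : List (List LLit)) : PolyFn (fun v => encodeCNF (formula hd atL atR v)) := by
  have h : Prints (X := Fin 3) {0} (fun e : Fin 3 → List (A ⊕ Unit) =>
      encodeCNF (formula hd atL atR (e 0))) := by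
    have h1 : Prints (X := Fin 3) {0} (fun e : Fin 3 → List (A ⊕ Unit) =>
        encodeCNF (tev 0 ((e 0).countP Sum.isLeft) ((e 0).countP Sum.isRight) hd)) := by
      refine (prints_tev (A := A) {0} (by simp) hd).congr ?_
      intro e he
      rw [he 1 (by simp)]
      rfl
    have h2 : ∀ (c : A ⊕ Unit → Bool) (k : A ⊕ Unit → List (List LLit)), Prints (X := Fin 3) {0}
        (fun e : Fin 3 → List (A ⊕ Unit) => encodeCNF (eachWord c (fun x u => tev u.length
          ((e 0).countP Sum.isLeft) ((e 0).countP Sum.isRight) (k x)) [] (e 0))) := by
      intro c k
      refine (Prints.each (s := {0}) (y := 0) (x := 1) (by decide) (by simp) c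
        (fun x => prints_tev (A := A) (insert 1 {0}) (by simp) (k x))).congr ?_
      intro e _
      rw [encodeCNF_eachWord]
      have h0 : ∀ u : List (A ⊕ Unit), update e 1 u 0 = e 0 :=
        fun u => Function.update_of_ne (by decide) _ _
      simp only [Function.update_self, h0]
    refine (h1.seq ((h2 Sum.isLeft (Sum.elim atL (fun _ => []))).seq
      (h2 Sum.isRight (Sum.elim (fun _ => []) (fun _ => atR))))).congr ?_
    intro e _
    unfold formula
    rw [encodeCNF_append, encodeCNF_append]
  have h2 := h.polyFn
  simpa using h2

end Print

/-! ### Membership -/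

theorem eachWord_append {A β : Type} (c : A → Bool) (f : A → List A → List β) :
    ∀ (u w₁ w₂ : List A), eachWord c f u (w₁ ++ w₂) =
      eachWord c f u w₁ ++ eachWord c f (u ++ w₁.filter c) w₂
  | u, [], w₂ => by simp [eachWord]
  | u, a :: l, w₂ => by
    rw [List.cons_append, eachWord, eachWord, eachWord_append c f _ l w₂, List.append_assoc]
    congr 3
    by_cases h : c a = true
    · simp [h]
    · simp [h]

theorem forall_mem_eachWord {A β : Type} (c : A → Bool) (f : A → List A → List β)
    (P : β → Prop) : ∀ (u w : List A), (∀ x ∈ eachWord c f u w, P x) ↔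
      ∀ (i : ℕ) (h : i < w.length), ∀ x ∈ f w[i] (u ++ (w.take i).filter c), P x
  | u, [] => by simp [eachWord]
  | u, a :: l => by
    have ih := forall_mem_eachWord c f P (if c a then u ++ [a] else u) l
    rw [eachWord]
    constructor
    · intro h i hi x hx
      cases i with
      | zero =>
        refine h x (List.mem_append_left _ ?_)
        simpa using hx
      | succ i =>
        have h1 := ih.1 (fun x hx => h x (List.mem_append_right _ hx)) i (by simpa using hi) x
        refine h1 ?_
        rw [List.getElem_cons_succ] at hx
        rw [List.take_succ_cons, List.filter_cons] at hx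
        by_cases hc : c a = true
        · rw [if_pos hc] at hx ⊢
          simpa using hx
        · rw [if_neg hc] at hx ⊢
          exact hx
    · intro h x hx
      rcases List.mem_append.1 hx with hx | hx
      · refine h 0 (by simp) x ?_
        simpa using hx
      · refine ih.2 ?_ x hx
        intro i hi x hx
        refine h (i + 1) (by simpa using hi) x ?_
        rw [List.getElem_cons_succ, List.take_succ_cons, List.filter_cons]
        by_cases hc : c a = true
        · rw [if_pos hc] at hx ⊢
          simpa using hx
        · rw [if_neg hc] at hx ⊢
          exact hx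

theorem forall_mem_formula {A : Type} (hd : List (List LLit)) (atL : A → List (List LLit))
    (atR : List (List LLit)) (u : List A) (M : ℕ) (P : List (ℕ × Bool) → Prop) :
    (∀ C ∈ formula hd atL atR (u.map Sum.inl ++ List.replicate M (Sum.inr ())), P C) ↔
      (∀ C ∈ tev 0 u.length M hd, P C) ∧
      (∀ (j : ℕ) (h : j < u.length), ∀ C ∈ tev j u.length M (atL u[j]), P C) ∧
      (∀ p < M, ∀ C ∈ tev p u.length M atR, P C) := by
  have c1 : (u.map Sum.inl ++ List.replicate M (Sum.inr ()) : List (A ⊕ Unit)).countP Sum.isLeft =
      u.length := by
    rw [List.countP_append, List.countP_map, List.countP_replicate]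
    simp [Function.comp_def]
  have c2 : (u.map Sum.inl ++ List.replicate M (Sum.inr ()) : List (A ⊕ Unit)).countP Sum.isRight =
      M := by
    rw [List.countP_append, List.countP_map, List.countP_replicate]
    simp [Function.comp_def]
  have f1 : ∀ i, (((u.map Sum.inl).take i : List (A ⊕ Unit)).filter Sum.isLeft) =
      (u.take i).map Sum.inl := by
    intro i
    rw [← List.map_take, List.filter_map]
    simp [Function.comp_def]
  have f2 : ∀ i, (((u.map Sum.inl).take i : List (A ⊕ Unit)).filter Sum.isRight) = [] := by
    intro i
    rw [← List.map_take, List.filter_map]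
    simp [Function.comp_def]
  unfold formula
  rw [c1, c2]
  simp only [List.mem_append, or_imp, forall_and]
  refine and_congr Iff.rfl (and_congr ?_ ?_)
  · rw [eachWord_append]
    simp only [List.mem_append, or_imp, forall_and]
    rw [forall_mem_eachWord, forall_mem_eachWord]
    constructor
    · rintro ⟨h, -⟩ j hj C hC
      refine h j (by simpa using hj) C ?_
      rw [f1]
      simp only [List.getElem_map, Sum.elim_inl, List.nil_append, List.length_map,
        List.length_take]
      rwa [Nat.min_eq_left hj.le]
    · intro h
      refine ⟨?_, ?_⟩
      · intro j hj C hC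
        rw [f1] at hC
        simp only [List.getElem_map, Sum.elim_inl, List.nil_append, List.length_map,
          List.length_take] at hC
        rw [List.length_map] at hj
        rw [Nat.min_eq_left hj.le] at hC
        exact h j hj C hC
      · intro j hj C hC
        rw [List.getElem_replicate] at hC
        simp [tev] at hC
  · rw [eachWord_append]
    simp only [List.mem_append, or_imp, forall_and]
    rw [forall_mem_eachWord, forall_mem_eachWord]
    have f3 := f2 u.length
    rw [show (u.map Sum.inl : List (A ⊕ Unit)).take u.length = u.map Sum.inl by
      rw [← List.length_map (f := (Sum.inl : A → A ⊕ Unit)) (as := u), List.take_length]] at f3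
    rw [f3]
    constructor
    · rintro ⟨-, h⟩ p hp C hC
      refine h p (by simpa using hp) C ?_
      simp only [List.getElem_replicate, Sum.elim_inr, List.nil_append, List.take_replicate,
        List.filter_replicate]
      simpa [Nat.min_eq_left hp.le] using hC
    · intro h
      refine ⟨?_, ?_⟩
      · intro j hj C hC
        rw [List.getElem_map] at hC
        simp [tev] at hC
      · intro p hp C hC
        rw [List.length_replicate] at hp
        refine h p hp C ?_
        simp only [List.getElem_replicate, Sum.elim_inr, List.nil_append, List.take_replicate,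
          List.filter_replicate] at hC
        simpa [Nat.min_eq_left hp.le] using hC

end Pool.Agent.Common_CookLevin
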