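import Pool.Agent.Common_CookLevin.Sat

/-!
# Formulas expressing the existence of tableaux
-/

namespace Pool.Agent.Common_CookLevin

/-! ### Sequences given by a local rule -/

section Seq

variable {Col : Type}

/-- the sequence of colours with a given start and a given local rule -/
def tabSeq (W : ℕ) (hW : 2 ≤ W) (F : Col → Col → Col → Col → Col) (row : ℕ → Col) (p : ℕ) : Col :=
  if h : p ≤ W then row p
  else F (tabSeq W hW F row (p - W - 1)) (tabSeq W hW F row (p - W))
    (tabSeq W hW F row (p - W + 1)) (tabSeq W hW F row (p - 1))
termination_by p
decreasing_by all_goals omega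

theorem tabSeq_le {W : ℕ} (hW : 2 ≤ W) (F : Col → Col → Col → Col → Col) (row : ℕ → Col) {p : ℕ}
    (h : p ≤ W) : tabSeq W hW F row p = row p := by
  rw [tabSeq, dif_pos h]

theorem tabSeq_rec {W : ℕ} (hW : 2 ≤ W) (F : Col → Col → Col → Col → Col) (row : ℕ → Col) (p : ℕ) :
    tabSeq W hW F row (p + W + 1) = F (tabSeq W hW F row p) (tabSeq W hW F row (p + 1))
      (tabSeq W hW F row (p + 2)) (tabSeq W hW F row (p + W)) := by
  rw [tabSeq, dif_neg (by omega)]
  have e1 : p + W + 1 - W - 1 = p := by omega
  have e2 : p + W + 1 - W = p + 1 := by omega
  have e3 : p + W + 1 - 1 = p + W := by omega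
  rw [e1, e2, e3]

end Seq

section Form

variable {Col B : Type} [Fintype Col] [Fintype B]

/-- the number of the variable cell `q` has colour `a` -/
noncomputable def idx (q : ℕ) (a : Col) : ℕ := Fintype.card Col * q + Fintype.equivFin Col a

/-- template for the literal cell `up * p + uw * (m + 1) + um * M + c` has colour `a` -/
noncomputable def clit (s : Bool) (up uw um c : ℕ) (a : Col) : LLit :=
  ⟨s, Fintype.card Col * up, Fintype.card Col * uw, Fintype.card Col * um,
    Fintype.card Col * (c + uw) + Fintype.equivFin Col a⟩

theorem clit_ev (s : Bool) (up uw um c : ℕ) (a : Col) (p m M : ℕ) :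
    (clit s up uw um c a).ev p m M = (idx (up * p + uw * (m + 1) + um * M + c) a, s) := by
  simp only [clit, LLit.ev, idx]
  congr 1
  ring

open Classical in
/-- the clauses for the beginning and the end -/
noncomputable def tHead (dummy start : Col) (Acc : Set Col) : List (List LLit) :=
  [clit true 0 0 0 0 dummy] :: [clit true 0 0 0 1 start] ::
    ((Finset.univ : Finset Col).toList.filter (fun a => a ∉ Acc)).map
      (fun a => [clit false 0 1 1 0 a])

/-- the clauses for the first row -/
noncomputable def tRow (blank : Col) (ini : Bool → Col) (gs : B → Col) :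
    (Bool ⊕ Unit) ⊕ Unit → List (List LLit)
  | .inl (.inl b) => [[clit true 1 0 0 2 (ini b)]]
  | .inl (.inr ()) => [clit true 1 0 0 2 blank ::
      ((Finset.univ : Finset B).toList.map fun b => clit true 1 0 0 2 (gs b)),
      [clit false 1 0 0 2 blank, clit true 1 0 0 3 blank]]
  | .inr () => [[clit true 1 0 0 2 blank]]

/-- the clauses for the local rule -/
noncomputable def tRule (F : Col → Col → Col → Col → Col) : List (List LLit) :=
  (Finset.univ : Finset (Col × Col × Col × Col)).toList.map fun x =>
    [clit false 1 0 0 0 x.1, clit false 1 0 0 1 x.2.1, clit false 1 0 0 2 x.2.2.1,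
      clit false 1 1 0 0 x.2.2.2, clit true 1 1 0 1 (F x.1 x.2.1 x.2.2.1 x.2.2.2)]

/-- a clause is satisfied -/
def Sat (val : ℕ → Bool) (C : List (ℕ × Bool)) : Prop := ∃ l ∈ C, val l.1 = l.2

/-- cell `q` has colour `a` under the assignment -/
def Has (val : ℕ → Bool) (q : ℕ) (a : Col) : Prop := val (idx q a) = true

theorem sat_hd (val : ℕ → Bool) (dummy start : Col) (Acc : Set Col) (m M : ℕ) :
    (∀ C ∈ tev 0 m M (tHead dummy start Acc), Sat val C) ↔
      Has val 0 dummy ∧ Has val 1 start ∧ ∀ a, a ∉ Acc → ¬ Has val (m + 1 + M) a := by
  simp only [tev, tHead, List.map_cons, List.map_map, List.mem_cons, List.mem_map,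
    List.mem_filter, Finset.mem_toList, Finset.mem_univ, true_and, decide_eq_true_eq,
    Function.comp_apply, forall_eq_or_imp, forall_exists_index, and_imp,
    forall_apply_eq_imp_iff₂, Sat, List.map_nil, List.not_mem_nil, or_false, exists_eq_left,
    clit_ev, Has, Bool.not_eq_true]
  simp

theorem sat_rule (val : ℕ → Bool) (F : Col → Col → Col → Col → Col) (p m M : ℕ) :
    (∀ C ∈ tev p m M (tRule F), Sat val C) ↔
      ∀ a b d e, Has val p a → Has val (p + 1) b → Has val (p + 2) d → Has val (p + (m + 1)) e →
        Has val (p + (m + 1) + 1) (F a b d e) := by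
  rw [tev, tRule, List.map_map, List.forall_mem_map]
  simp only [Finset.mem_toList, Finset.mem_univ, true_implies,
    Function.comp_apply, Sat, List.map_cons,
    List.map_nil, clit_ev, Has, Prod.forall]
  refine forall_congr' fun a => forall_congr' fun b => forall_congr' fun d =>
    forall_congr' fun e => ?_
  simp only [List.mem_cons, List.not_mem_nil, or_false, exists_eq_or_imp, exists_eq_left,
    Nat.one_mul, Nat.zero_mul, Nat.add_zero]
  cases val (idx p a) <;> cases val (idx (p + 1) b) <;> cases val (idx (p + 2) d) <;>
    cases val (idx (p + (m + 1)) e) <;> simp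

theorem sat_row_ini (val : ℕ → Bool) (blank : Col) (ini : Bool → Col) (gs : B → Col)
    (j m M : ℕ) (b : Bool) :
    (∀ C ∈ tev j m M (tRow blank ini gs (.inl (.inl b))), Sat val C) ↔
      Has val (j + 2) (ini b) := by
  simp [tev, tRow, Sat, clit_ev, Has]

theorem sat_row_blank (val : ℕ → Bool) (blank : Col) (ini : Bool → Col) (gs : B → Col)
    (j m M : ℕ) :
    (∀ C ∈ tev j m M (tRow blank ini gs (.inr ())), Sat val C) ↔ Has val (j + 2) blank := by
  simp [tev, tRow, Sat, clit_ev, Has]

theorem sat_row_guess (val : ℕ → Bool) (blank : Col) (ini : Bool → Col) (gs : B → Col)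
    (j m M : ℕ) :
    (∀ C ∈ tev j m M (tRow blank ini gs (.inl (.inr ()))), Sat val C) ↔
      (Has val (j + 2) blank ∨ ∃ b, Has val (j + 2) (gs b)) ∧
      (Has val (j + 2) blank → Has val (j + 3) blank) := by
  simp only [tev, tRow, Sat, List.map_cons, List.map_nil, List.mem_cons, List.not_mem_nil,
    or_false, forall_eq_or_imp, forall_eq, List.map_map, exists_eq_or_imp, exists_eq_left,
    List.mem_map, Finset.mem_toList, Finset.mem_univ, true_and, Function.comp_apply,
    exists_exists_eq_and, clit_ev, Nat.one_mul, Nat.zero_mul, Nat.add_zero, Has]
  refine and_congr Iff.rfl ?_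
  cases val (idx (j + 2) blank) <;> simp

/-- the first row: a dummy cell, the first cell of the row, the input, the certificate -/
def firstRow (dummy start blank : Col) (ini : Bool → Col) (gs : B → Col) (w : List Bool)
    (cert : List B) : ℕ → Col
  | 0 => dummy
  | 1 => start
  | q + 2 => if h : q < w.length then ini w[q] else (cert[q - w.length]?.map gs).getD blank

omit [Fintype Col] [Fintype B] in
theorem firstRow_add_two (dummy start blank : Col) (ini : Bool → Col) (gs : B → Col)
    (w : List Bool) (cert : List B) (q : ℕ) :
    firstRow dummy start blank ini gs w cert (q + 2) =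
      if h : q < w.length then ini w[q] else (cert[q - w.length]?.map gs).getD blank := rfl

/-- the input followed by two kinds of marks -/
abbrev twoPad (w : List Bool) (N T : ℕ) : List ((Bool ⊕ Unit) ⊕ Unit) :=
  (w.map Sum.inl ++ List.replicate N (Sum.inr ())).map Sum.inl ++ List.replicate T (Sum.inr ())

theorem twoPad_length (w : List Bool) (N T : ℕ) : (twoPad w N T).length = w.length + N + T := by
  simp only [twoPad, List.length_append, List.length_map, List.length_replicate]

theorem twoPad_ini (w : List Bool) (N T : ℕ) (j : ℕ) (hj : j < w.length)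
    (h : j < (twoPad w N T).length) : (twoPad w N T)[j] = .inl (.inl w[j]) := by
  unfold twoPad
  rw [List.getElem_append_left (by simp; omega), List.getElem_map,
    List.getElem_append_left (by simpa using hj), List.getElem_map]

theorem twoPad_guess (w : List Bool) (N T : ℕ) (j : ℕ) (hj : w.length ≤ j)
    (hj2 : j < w.length + N)
    (h : j < (twoPad w N T).length) : (twoPad w N T)[j] = .inl (.inr ()) := by
  unfold twoPad
  rw [List.getElem_append_left (by simp; omega), List.getElem_map,
    List.getElem_append_right (by simpa using hj), List.getElem_replicate]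

theorem twoPad_blank (w : List Bool) (N T : ℕ) (j : ℕ) (hj : w.length + N ≤ j)
    (h : j < (twoPad w N T).length) : (twoPad w N T)[j] = .inr () := by
  unfold twoPad
  rw [List.getElem_append_right (by simp; omega), List.getElem_replicate]

theorem formula_sat_iff (val : ℕ → Bool) (dummy start blank : Col) (ini : Bool → Col)
    (gs : B → Col) (Acc : Set Col) (F : Col → Col → Col → Col → Col) (w : List Bool)
    (N T M : ℕ) :
    (∀ C ∈ formula (tHead dummy start Acc) (tRow blank ini gs) (tRule F)
      ((twoPad w N T).map Sum.inl ++ List.replicate M (Sum.inr ())), Sat val C) ↔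
    (Has val 0 dummy ∧ Has val 1 start ∧
      ∀ a, a ∉ Acc → ¬ Has val (w.length + N + T + 1 + M) a) ∧
    ((∀ (j : ℕ) (h : j < w.length), Has val (j + 2) (ini w[j])) ∧
      (∀ j, w.length ≤ j → j < w.length + N →
        (Has val (j + 2) blank ∨ ∃ b, Has val (j + 2) (gs b)) ∧
        (Has val (j + 2) blank → Has val (j + 3) blank)) ∧
      (∀ j, w.length + N ≤ j → j < w.length + N + T → Has val (j + 2) blank)) ∧
    (∀ p < M, ∀ a b d e, Has val p a → Has val (p + 1) b → Has val (p + 2) d →
      Has val (p + (w.length + N + T + 1)) e →
        Has val (p + (w.length + N + T + 1) + 1) (F a b d e)) := by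
  rw [forall_mem_formula]
  refine and_congr ?_ (and_congr ?_ ?_)
  · rw [sat_hd, twoPad_length]
  · constructor
    · intro h
      refine ⟨?_, ?_, ?_⟩
      · intro j hj
        have hj2 : j < (twoPad w N T).length := by rw [twoPad_length]; omega
        have h1 := h j hj2
        rw [twoPad_ini w N T j hj hj2, sat_row_ini] at h1
        exact h1
      · intro j hj hj1
        have hj2 : j < (twoPad w N T).length := by rw [twoPad_length]; omega
        have h1 := h j hj2
        rw [twoPad_guess w N T j hj hj1 hj2, sat_row_guess] at h1
        exact h1
      · intro j hj hj1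
        have hj2 : j < (twoPad w N T).length := by rw [twoPad_length]; omega
        have h1 := h j hj2
        rw [twoPad_blank w N T j hj hj2, sat_row_blank] at h1
        exact h1
    · rintro ⟨h1, h2, h3⟩ j hj
      have hj2 := hj
      rw [twoPad_length] at hj2
      by_cases c1 : j < w.length
      · rw [twoPad_ini w N T j c1 hj, sat_row_ini]
        exact h1 j c1
      · by_cases c2 : j < w.length + N
        · rw [twoPad_guess w N T j (by omega) c2 hj, sat_row_guess]
          exact h2 j (by omega) c2
        · rw [twoPad_blank w N T j (by omega) hj, sat_row_blank]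
          exact h3 j (by omega) hj2
  · refine forall_congr' fun p => forall_congr' fun _ => ?_
    rw [sat_rule, twoPad_length]

theorem formula_sat (dummy start blank : Col) (ini : Bool → Col)
    (gs : B → Col) (Acc : Set Col) (F : Col → Col → Col → Col → Col) (w : List Bool)
    (N T M : ℕ) (hT : 0 < T) (hW : 2 ≤ w.length + N + T + 1) (hgs : ∀ b, gs b ≠ blank) :
    (∃ val, ∀ C ∈ formula (tHead dummy start Acc) (tRow blank ini gs) (tRule F)
      ((twoPad w N T).map Sum.inl ++ List.replicate M (Sum.inr ())), Sat val C) ↔
    ∃ cert : List B, cert.length ≤ N ∧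
      tabSeq (w.length + N + T + 1) hW F (firstRow dummy start blank ini gs w cert)
        (w.length + N + T + 1 + M) ∈ Acc := by
  constructor
  · rintro ⟨val, h⟩
    rw [formula_sat_iff] at h
    obtain ⟨⟨h0, h1, hacc⟩, ⟨hini, hguess, hblank⟩, hrule⟩ := h
    -- the certificate
    have hex : ∃ k, Has val (w.length + k + 2) blank := ⟨N, hblank _ (le_refl _) (by omega)⟩
    classical
    let k := Nat.find hex
    have hk : Has val (w.length + k + 2) blank := Nat.find_spec hex
    have hk' : ∀ j < k, ¬ Has val (w.length + j + 2) blank := fun j hj => Nat.find_min hex hj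
    have hkN : k ≤ N := Nat.find_min' hex (hblank _ (le_refl _) (by omega))
    have hb : ∀ j : Fin k, ∃ b, Has val (w.length + j.val + 2) (gs b) := by
      intro j
      rcases (hguess (w.length + j.val) (by omega) (by omega)).1 with h | h
      · exact absurd h (hk' j.val j.isLt)
      · exact h
    choose b hb using hb
    have hbl : ∀ j, k ≤ j → j < N + T → Has val (w.length + j + 2) blank := by
      intro j hj
      induction j, hj using Nat.le_induction with
      | base => intro _; exact hk
      | succ j hj ih =>
        intro hj2
        by_cases c : j < N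
        · exact (hguess (w.length + j) (by omega) (by omega)).2 (ih (by omega))
        · exact hblank (w.length + (j + 1)) (by omega) (by omega)
    refine ⟨List.ofFn b, by simpa using hkN, ?_⟩
    -- all cells have the right colour
    have key : ∀ p, p ≤ w.length + N + T + 1 + M → Has val p
        (tabSeq (w.length + N + T + 1) hW F
          (firstRow dummy start blank ini gs w (List.ofFn b)) p) := by
      intro p
      induction p using Nat.strong_induction_on with
      | _ p ih =>
        intro hp
        by_cases c : p ≤ w.length + N + T + 1
        · rw [tabSeq_le hW F _ c]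
          match p, c with
          | 0, _ => exact h0
          | 1, _ => exact h1
          | q + 2, c =>
            rw [firstRow_add_two]
            by_cases c1 : q < w.length
            · rw [dif_pos c1]
              exact hini q c1
            · rw [dif_neg c1]
              by_cases c2 : q - w.length < k
              · have e1 : (List.ofFn b)[q - w.length]? = some (b ⟨q - w.length, c2⟩) := by
                  rw [List.getElem?_eq_getElem (by simpa using c2), List.getElem_ofFn]
                rw [e1]
                have := hb ⟨q - w.length, c2⟩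
                have e2 : w.length + (q - w.length) + 2 = q + 2 := by omega
                rw [e2] at this
                exact this
              · have e1 : (List.ofFn b)[q - w.length]? = none := by
                  rw [List.getElem?_eq_none_iff]
                  simp only [List.length_ofFn]
                  omega
                rw [e1]
                have := hbl (q - w.length) (by omega) (by omega)
                have e2 : w.length + (q - w.length) + 2 = q + 2 := by omega
                rw [e2] at this
                exact this
        · obtain ⟨p', rfl⟩ : ∃ p', p = p' + (w.length + N + T + 1) + 1 :=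
            ⟨p - (w.length + N + T + 1) - 1, by omega⟩
          rw [tabSeq_rec]
          exact hrule p' (by omega) _ _ _ _ (ih _ (by omega) (by omega))
            (ih _ (by omega) (by omega)) (ih _ (by omega) (by omega))
            (ih _ (by omega) (by omega))
    by_contra hne
    exact hacc _ hne (key _ (le_refl _))
  · rintro ⟨cert, hcert, hfin⟩
    classical
    have hC : 0 < Fintype.card Col := Fintype.card_pos_iff.2 ⟨dummy⟩
    let c := tabSeq (w.length + N + T + 1) hW F (firstRow dummy start blank ini gs w cert)
    let val : ℕ → Bool := fun i => decide (c (i / Fintype.card Col) =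
      (Fintype.equivFin Col).symm ⟨i % Fintype.card Col, Nat.mod_lt _ hC⟩)
    have hval : ∀ q a, Has val q a ↔ c q = a := by
      intro q a
      have e1 : idx q a / Fintype.card Col = q := by
        unfold idx
        rw [Nat.mul_add_div hC, Nat.div_eq_of_lt (Fin.isLt _), Nat.add_zero]
      have e2 : idx q a % Fintype.card Col = Fintype.equivFin Col a := by
        unfold idx
        rw [Nat.mul_add_mod, Nat.mod_eq_of_lt (Fin.isLt _)]
      have e3 : (Fintype.equivFin Col).symm ⟨idx q a % Fintype.card Col, Nat.mod_lt _ hC⟩ = a := by
        rw [Equiv.symm_apply_eq]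
        exact Fin.ext e2
      simp only [Has, val, decide_eq_true_eq]
      rw [e1, e3]
    refine ⟨val, ?_⟩
    rw [formula_sat_iff]
    simp only [hval]
    have hrow : ∀ q, q ≤ w.length + N + T + 1 → c q =
      firstRow dummy start blank ini gs w cert q := fun q hq => tabSeq_le hW F _ hq
    refine ⟨⟨hrow 0 (by omega), hrow 1 (by omega), ?_⟩, ⟨?_, ?_, ?_⟩, ?_⟩
    · intro a ha h
      rw [← h] at ha
      exact ha hfin
    · intro j hj
      rw [hrow _ (by omega), firstRow_add_two, dif_pos hj]
    · intro j hj hj1
      rw [hrow _ (by omega), hrow _ (by omega), firstRow_add_two,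
        show j + 3 = j + 1 + 2 by ring, firstRow_add_two, dif_neg (by omega), dif_neg (by omega)]
      cases h1 : cert[j - w.length]? with
      | none =>
        refine ⟨Or.inl rfl, fun _ => ?_⟩
        have : cert[j + 1 - w.length]? = none := by
          rw [List.getElem?_eq_none_iff] at h1 ⊢
          omega
        rw [this]
        rfl
      | some b =>
        exact ⟨Or.inr ⟨b, rfl⟩, fun h => absurd h (hgs b)⟩
    · intro j hj hj1
      rw [hrow _ (by omega), firstRow_add_two, dif_neg (by omega)]
      have : cert[j - w.length]? = none := by
        rw [List.getElem?_eq_none_iff]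
        omega
      rw [this]
      rfl
    · intro p _ a b d e ha hb hd he
      rw [← ha, ← hb, ← hd, ← he]
      exact tabSeq_rec hW F _ p

end Form

end Pool.Agent.Common_CookLevin
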