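import Pool.Agent.Helper32_Poly.Morphism
import Pool.Agent.Helper32_Poly.Comp

/-!
# Word programs

A small calculus of functions from words to words that are computable in polynomial time (in the
sense of Mathlib's `Turing.TM2ComputableInPolyTime`).

Variables `x : X` hold words over `A`; a generator prints a word over `B` which depends on the
values `e : X → List A` of the variables.  `Prints s f` says that some stack program prints
`f e`, in time polynomial in the lengths of the `e x`, whenever the variables outside `s` are empty.

* `Prints.word`    : print a fixed word,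
* `Prints.seq`     : print one thing after the other,
* `Prints.each`    : for each letter `a` of the word `e y` run a generator depending on `a`; in it
  the variable `x` holds the word of the letters already treated (those `a` with `c a = true`).
* `Prints.computable` : if `f` can be printed then `w ↦ f (x₀ := w)` is polynomial time computable.
-/

namespace Pool.Agent.Common_CookLevin

open Turing Function Computability Pool.Agent.Helper32_Poly

/-! ### A loop over the letters of a stack -/

section Letters

variable {K : Type} [DecidableEq K] {Γ : K → Type} {σ : Type}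

/-- pop the letters of stack `k` one after the other; run `p a` for the letter `a` -/
noncomputable def forLetters (k : K) [Fintype (Γ k)] (get : σ → Option (Γ k))
    (set : σ → Option (Γ k) → σ) (p : Γ k → Prog Γ σ) : Prog Γ σ :=
  .forEach k get set (.switch get p (Finset.univ : Finset (Γ k)).toList)

theorem forLetters_run (k : K) [Fintype (Γ k)] (get : σ → Option (Γ k))
    (set : σ → Option (Γ k) → σ) (hgs : ∀ v o, get (set v o) = o) (p : Γ k → Prog Γ σ)
    (I : List (Γ k) → (∀ k, List (Γ k)) → Prop) (T : ℕ)
    (step : ∀ a l v S, I (a :: l) S → S k = a :: l → ∃ v' S' t, t ≤ T ∧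
      Prog.Run (p a) (set v (some a)) (update S k l) v' S' t ∧ I l S' ∧ S' k = l)
    (l : List (Γ k)) (v : σ) (S : ∀ k, List (Γ k)) (hS : S k = l) (hI : I l S) :
      ∃ v' S' t, t ≤ l.length * (T + Fintype.card (Γ k) + 2) + 2 ∧
        Prog.Run (forLetters k get set p) v S (set v' none) S' t ∧ I [] S' ∧ S' k = [] := by
  refine Prog.forEach_run k get set hgs _ (fun l _ S => I l S) (T + Fintype.card (Γ k)) ?_
    l v S hS hI
  intro a l v S hI hS
  obtain ⟨v', S', t, ht, hr, hI', hS'⟩ := step a l v S hI hS
  obtain ⟨t', ht', hr'⟩ := Prog.switch_run get p (hgs v (some a)) hr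
    (Finset.univ : Finset (Γ k)).toList (by simp)
  refine ⟨v', S', t', ?_, hr', hI', hS'⟩
  rw [Finset.length_toList, Finset.card_univ] at ht'
  omega

end Letters

/-! ### The stacks -/

/-- names of the stacks: the input stack, a scratch stack, the output stack, the final stack,
and two stacks (value, letters still to be treated) for each variable -/
inductive Stk (X : Type)
  | inp | scr | out | fin
  | V (x : X)
  | T (x : X)
  deriving DecidableEq

/-- the names of the stacks as a sum type -/
def Stk.equiv (X : Type) : Stk X ≃ Fin 4 ⊕ (X ⊕ X) where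
  toFun
    | .inp => .inl 0
    | .scr => .inl 1
    | .out => .inl 2
    | .fin => .inl 3
    | .V x => .inr (.inl x)
    | .T x => .inr (.inr x)
  invFun
    | .inl 0 => .inp
    | .inl 1 => .scr
    | .inl 2 => .out
    | .inl 3 => .fin
    | .inr (.inl x) => .V x
    | .inr (.inr x) => .T x
  left_inv := by intro x; cases x <;> rfl
  right_inv := by
    intro x
    match x with
    | .inl 0 => rfl
    | .inl 1 => rfl
    | .inl 2 => rfl
    | .inl 3 => rfl
    | .inr (.inl x) => rfl
    | .inr (.inr x) => rfl

instance {X : Type} [Fintype X] : Fintype (Stk X) := Fintype.ofEquiv _ (Stk.equiv X).symm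

/-- the alphabets of the stacks -/
abbrev SAlph (A B : Type) {X : Type} : Stk X → Type
  | .inp => A
  | .scr => A
  | .out => B
  | .fin => B
  | .V _ => A
  | .T _ => A

section Stacks

variable {A B X : Type}

/-- the contents of the stacks -/
def St (i s : List A) (o r : List B) (V T : X → List A) : ∀ k : Stk X, List (SAlph A B k)
  | .inp => i
  | .scr => s
  | .out => o
  | .fin => r
  | .V x => V x
  | .T x => T x

variable [DecidableEq X]

theorem St_inp (i s : List A) (o r : List B) (V T : X → List A) (l : List A) :
    update (St i s o r V T) Stk.inp l = St l s o r V T := by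
  funext k
  cases k <;> simp [update, St]

theorem St_scr (i s : List A) (o r : List B) (V T : X → List A) (l : List A) :
    update (St i s o r V T) Stk.scr l = St i l o r V T := by
  funext k
  cases k <;> simp [update, St]

theorem St_out (i s : List A) (o r : List B) (V T : X → List A) (l : List B) :
    update (St i s o r V T) Stk.out l = St i s l r V T := by
  funext k
  cases k <;> simp [update, St]

theorem St_fin (i s : List A) (o r : List B) (V T : X → List A) (l : List B) :
    update (St i s o r V T) Stk.fin l = St i s o l V T := by
  funext k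
  cases k <;> simp [update, St]

theorem St_V (i s : List A) (o r : List B) (V T : X → List A) (x : X) (l : List A) :
    update (St i s o r V T) (Stk.V x) l = St i s o r (update V x l) T := by
  funext k
  cases k with
  | V y => by_cases h : y = x
           · subst h; simp [St]
           · simp [St, h]
  | _ => simp [update, St]

theorem St_T (i s : List A) (o r : List B) (V T : X → List A) (x : X) (l : List A) :
    update (St i s o r V T) (Stk.T x) l = St i s o r V (update T x l) := by
  funext k
  cases k with
  | T y => by_cases h : y = x
           · subst h; simp [St]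
           · simp [St, h]
  | _ => simp [update, St]

end Stacks

/-! ### Generators -/

section Gen

variable {A B X : Type} [DecidableEq X]

/-- the internal memory -/
abbrev Mem (A B : Type) : Type := Option A × Option B

/-- stack programs for word functions -/
abbrev WProg (A B X : Type) : Type := Prog (SAlph A B (X := X)) (Mem A B)

/-- reading the first memory cell -/
abbrev getA (v : Mem A B) : Option A := v.1
/-- writing the first memory cell -/
abbrev setA (v : Mem A B) (o : Option A) : Mem A B := (o, v.2)
/-- reading the second memory cell -/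
abbrev getB (v : Mem A B) : Option B := v.2
/-- writing the second memory cell -/
abbrev setB (v : Mem A B) (o : Option B) : Mem A B := (v.1, o)

/-- `Prints s f`: some stack program appends the word `f e` to the output, in polynomial time,
whenever the variables outside `s` are empty -/
def Prints (s : Set X) (f : (X → List A) → List B) : Prop :=
  ∃ (p : WProg A B X) (q : Polynomial ℕ),
    ∀ (N : ℕ) (e T : X → List A) (o : List B), (∀ x, (e x).length ≤ N) →
      (∀ x, x ∉ s → e x = [] ∧ T x = []) →
      ∃ t, t ≤ q.eval N ∧
        Prog.Run p (none, none) (St [] [] o [] (fun x => (e x).reverse) T) (none, none)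
          (St [] [] ((f e).reverse ++ o) [] (fun x => (e x).reverse) T) t

theorem Prints.word (s : Set X) (u : List B) : Prints (A := A) s (fun _ => u) := by
  refine ⟨.pushWord Stk.out u, ((u.length + 1 : ℕ) : Polynomial ℕ), ?_⟩
  intro N e T o _ _
  refine ⟨u.length + 1, ?_, ?_⟩
  · simp only [Polynomial.eval_natCast, Nat.cast_id, le_refl]
  · have h := Prog.pushWord_run (Γ := SAlph A B (X := X)) Stk.out ((none, none) : Mem A B) u
      (St [] [] o [] (fun x => (e x).reverse) T)
    rw [St_out] at h
    exact h

theorem Prints.seq {s : Set X} {f g : (X → List A) → List B} (hf : Prints s f)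
    (hg : Prints s g) : Prints s (fun e => f e ++ g e) := by
  obtain ⟨p, q, H⟩ := hf
  obtain ⟨p', q', H'⟩ := hg
  refine ⟨.seq p p', q + q', ?_⟩
  intro N e T o hN hs
  obtain ⟨t, ht, hr⟩ := H N e T o hN hs
  obtain ⟨t', ht', hr'⟩ := H' N e T ((f e).reverse ++ o) hN hs
  refine ⟨t + t', ?_, ?_⟩
  · rw [Polynomial.eval_add]
    omega
  · have := Prog.Run.seq hr hr'
    simpa using this

theorem Prints.congr {s : Set X} {f g : (X → List A) → List B} (hf : Prints s f)
    (h : ∀ e, (∀ x, x ∉ s → e x = []) → f e = g e) : Prints s g := by
  obtain ⟨p, q, H⟩ := hf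
  refine ⟨p, q, ?_⟩
  intro N e T o hN hs
  obtain ⟨t, ht, hr⟩ := H N e T o hN hs
  rw [h e (fun x hx => (hs x hx).1)] at hr
  exact ⟨t, ht, hr⟩

theorem Prints.mono {s s' : Set X} {f : (X → List A) → List B} (hf : Prints s f)
    (h : s' ⊆ s) : Prints s' f := by
  obtain ⟨p, q, H⟩ := hf
  refine ⟨p, q, ?_⟩
  intro N e T o hN hs
  exact H N e T o hN (fun x hx => hs x (fun h1 => hx (h h1)))

/-- copy the value of `y` to the stack `T x` -/
noncomputable def copyProg [Fintype A] (y x : X) : WProg A B X :=
  .seq (forLetters (Stk.V y) getA setA
      (fun a => .seq (.push Stk.scr (fun _ => a)) (.push (Stk.T x) (fun _ => a))))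
    (forLetters Stk.scr getA setA (fun a => .push (Stk.V y) (fun _ => a)))

theorem copyProg_run [Fintype A] (y x : X) (v : Mem A B) (o : List B) (V T : X → List A)
    (hT : T x = []) :
    ∃ v' t, t ≤ (V y).length * (2 * Fintype.card A + 7) + 4 ∧
      Prog.Run (copyProg y x) v (St [] [] o [] V T) v'
        (St [] [] o [] V (update T x (V y).reverse)) t := by
  obtain ⟨v1, S1, t1, ht1, hr1, ⟨d1, hd1, rfl⟩, -⟩ := forLetters_run
    (Γ := SAlph A B (X := X)) (Stk.V y) getA setA
    (fun _ _ => rfl) (fun a => .seq (.push Stk.scr (fun _ => a)) (.push (Stk.T x) (fun _ => a)))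
    (fun l S => ∃ d, d ++ l = V y ∧
      S = St [] d.reverse o [] (update V y l) (update T x d.reverse)) 2
    (by
      rintro a l v S ⟨d, hd, rfl⟩ -
      refine ⟨_, _, _, le_refl _, Prog.Run.seq (Prog.Run.push _ _ _ _) (Prog.Run.push _ _ _ _),
        ⟨d ++ [a], by simpa using hd, ?_⟩, ?_⟩
      · rw [St_V, St_scr, St_T]
        simp [St]
      · rw [St_V, St_scr, St_T]
        simp [St])
    (V y) v (St [] [] o [] V T) rfl
    ⟨[], rfl, by
      rw [List.reverse_nil, Function.update_eq_self, ← hT, Function.update_eq_self]⟩
  rw [List.append_nil] at hd1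
  subst hd1
  obtain ⟨v2, S2, t2, ht2, hr2, ⟨d2, hd2, rfl⟩, -⟩ := forLetters_run
    (Γ := SAlph A B (X := X)) Stk.scr getA setA
    (fun _ _ => rfl) (fun a => .push (Stk.V y) (fun _ => a))
    (fun l S => ∃ d, d ++ l = (V y).reverse ∧
      S = St [] l o [] (update V y d.reverse) (update T x (V y).reverse)) 1
    (by
      rintro a l v S ⟨d, hd, rfl⟩ -
      refine ⟨_, _, _, le_refl _, Prog.Run.push _ _ _ _,
        ⟨d ++ [a], by simpa using hd, ?_⟩, ?_⟩
      · rw [St_scr, St_V]
        simp [St]
      · rw [St_scr, St_V]
        simp [St])
    (V y).reverse (setA v1 none) (St [] (V y).reverse o [] (update V y [])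
      (update T x (V y).reverse)) rfl
    ⟨[], rfl, rfl⟩
  rw [List.append_nil] at hd2
  subst hd2
  have h3 := Prog.Run.seq hr1 hr2
  rw [List.reverse_reverse, Function.update_eq_self] at h3
  refine ⟨_, _, ?_, h3⟩
  rw [List.length_reverse] at ht2
  have e : (V y).length * (2 * Fintype.card A + 7) =
    (V y).length * (2 + Fintype.card A + 2) + (V y).length * (1 + Fintype.card A + 2) := by ring
  change t1 ≤ (V y).length * (2 + Fintype.card A + 2) + 2 at ht1
  change t2 ≤ (V y).length * (1 + Fintype.card A + 2) + 2 at ht2
  omega

/-- empty the stack `V x` -/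
noncomputable def clearV [Fintype A] (x : X) : WProg A B X :=
  forLetters (Stk.V x) getA setA (fun _ => .skip)

theorem clearV_run [Fintype A] (x : X) (v : Mem A B) (o : List B) (V T : X → List A) :
    ∃ v' t, t ≤ (V x).length * (Fintype.card A + 3) + 2 ∧
      Prog.Run (clearV x) v (St [] [] o [] V T) v' (St [] [] o [] (update V x []) T) t := by
  obtain ⟨v1, S1, t1, ht1, hr1, rfl, -⟩ := forLetters_run
    (Γ := SAlph A B (X := X)) (Stk.V x) getA setA
    (fun _ _ => rfl) (fun _ => .skip)
    (fun l S => S = St [] [] o [] (update V x l) T) 1
    (by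
      rintro a l v S rfl -
      refine ⟨_, _, _, le_refl _, Prog.skip_run _ _, ?_, ?_⟩
      · rw [St_V]
        simp
      · rw [St_V]
        simp [St])
    (V x) v (St [] [] o [] V T) rfl (by rw [Function.update_eq_self])
  refine ⟨_, _, ?_, hr1⟩
  change t1 ≤ (V x).length * (1 + Fintype.card A + 2) + 2 at ht1
  have e : (V x).length * (Fintype.card A + 3) = (V x).length * (1 + Fintype.card A + 2) := by ring
  omega

/-- `f a u` is concatenated over all letters `a` of the word, where `u` is the word of the
preceding letters `b` with `c b = true` -/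
def eachWord {β : Type} (c : A → Bool) (f : A → List A → List β) : List A → List A → List β
  | _, [] => []
  | u, a :: l => f a u ++ eachWord c f (if c a then u ++ [a] else u) l

/-- the program for one letter of the loop -/
noncomputable def eachBody (x : X) (c : A → Bool) (p : A → WProg A B X) (a : A) : WProg A B X :=
  .seq (.load (fun _ => (none, none))) (.seq (p a)
    (if c a then .push (Stk.V x) (fun _ => a) else .skip))

/-- the program for a loop -/
noncomputable def eachProg [Fintype A] (y x : X) (c : A → Bool) (p : A → WProg A B X) :
    WProg A B X :=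
  .seq (copyProg y x) (.seq (forLetters (Stk.T x) getA setA (eachBody x c p))
    (.seq (clearV x) (.load (fun _ => (none, none)))))

theorem Prints.each [Fintype A] {s : Set X} {y x : X} (hy : y ≠ x) (hx : x ∉ s) (c : A → Bool)
    {f : A → (X → List A) → List B} (hf : ∀ a, Prints (insert x s) (f a)) :
    Prints s (fun e => eachWord c (fun a u => f a (update e x u)) [] (e y)) := by
  choose p q H using hf
  refine ⟨eachProg y x c p, Polynomial.X * ((2 * Fintype.card A + 7 : ℕ) : Polynomial ℕ) +
    Polynomial.X * (∑ a, q a + ((Fintype.card A + 4 : ℕ) : Polynomial ℕ)) +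
    Polynomial.X * ((Fintype.card A + 3 : ℕ) : Polynomial ℕ) + ((9 : ℕ) : Polynomial ℕ), ?_⟩
  intro N e T o hN hs
  obtain ⟨hex, hTx⟩ := hs x hx
  obtain ⟨v1, t1, ht1, hr1⟩ := copyProg_run (A := A) y x (none, none) o
    (fun x => (e x).reverse) T hTx
  rw [List.reverse_reverse] at hr1
  -- the bound for the body
  have hq : ∀ a, (q a).eval N ≤ (∑ a, q a).eval N := by
    intro a
    rw [Polynomial.eval_finsetSum]
    exact Finset.single_le_sum (f := fun a => (q a).eval N) (fun _ _ => Nat.zero_le _)
      (Finset.mem_univ a)
  have hV0 : (fun z => (e z).reverse) = update (fun z => (e z).reverse) x ([] : List A) := by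
    rw [← List.reverse_nil, ← hex]
    exact (Function.update_eq_self x (fun z => (e z).reverse)).symm
  obtain ⟨v2, S2, t2, ht2, hr2, ⟨u2, d2, hu2, hd2, rfl⟩, -⟩ := forLetters_run
    (Γ := SAlph A B (X := X)) (Stk.T x) getA setA
    (fun _ _ => rfl) (eachBody x c p)
    (fun l S => ∃ u d, u.length + l.length ≤ (e y).length ∧
      d ++ eachWord c (fun a u => f a (update e x u)) u l =
        eachWord c (fun a u => f a (update e x u)) [] (e y) ∧
      S = St [] [] (d.reverse ++ o) [] (update (fun z => (e z).reverse) x u.reverse)
        (update T x l)) ((∑ a, q a).eval N + 2)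
    (by
      rintro a l v S ⟨u, d, hu, hd, rfl⟩ -
      have hu' : (update e x u x).length ≤ N := by
        rw [Function.update_self]
        have := hN y
        simp only [List.length_cons] at hu
        omega
      obtain ⟨t, ht, hr⟩ := H a N (update e x u) (update T x l) (d.reverse ++ o)
        (by
          intro z
          by_cases hz : z = x
          · subst hz
            exact hu'
          · rw [Function.update_of_ne hz]
            exact hN z)
        (by
          intro z hz
          have hzx : z ≠ x := fun h => hz (by simp [h])
          have hzs : z ∉ s := fun h => hz (by simp [h])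
          rw [Function.update_of_ne hzx, Function.update_of_ne hzx]
          exact hs z hzs)
      have hV : (fun z => (update e x u z).reverse) =
          update (fun z => (e z).reverse) x u.reverse := by
        funext z
        by_cases hz : z = x
        · subst hz
          simp
        · simp [hz]
      rw [hV] at hr
      have hS : update (St [] [] (d.reverse ++ o) [] (update (fun z => (e z).reverse) x u.reverse)
          (update T x (a :: l)) : ∀ k : Stk X, List (SAlph A B k)) (Stk.T x) l =
          St [] [] (d.reverse ++ o) [] (update (fun z => (e z).reverse) x u.reverse)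
          (update T x l) := by
        rw [St_T, Function.update_idem]
      have hd' : (d ++ f a (update e x u)) ++ eachWord c (fun a u => f a (update e x u))
          (if c a then u ++ [a] else u) l =
          eachWord c (fun a u => f a (update e x u)) [] (e y) := by
        rw [← hd, List.append_assoc]
        rfl
      have hout : (f a (update e x u)).reverse ++ (d.reverse ++ o) =
          (d ++ f a (update e x u)).reverse ++ o := by simp
      rw [hout] at hr
      by_cases hc : c a = true
      · have hr' := Prog.Run.push (Γ := SAlph A B (X := X)) (Stk.V x) (fun _ => a)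
          ((none, none) : Mem A B) (St [] [] ((d ++ f a (update e x u)).reverse ++ o) []
            (update (fun z => (e z).reverse) x u.reverse) (update T x l))
        rw [St_V, Function.update_idem] at hr'
        have hu2 : a :: (update (fun z => (e z).reverse) x u.reverse x) = (u ++ [a]).reverse := by
          simp
        change Prog.Run _ _ _ _ (St [] [] _ [] (update (fun z => (e z).reverse) x
          (a :: (update (fun z => (e z).reverse) x u.reverse x))) _) 1 at hr'
        rw [hu2] at hr'
        rw [if_pos hc] at hd'
        refine ⟨(none, none), _, 1 + (t + 1), ?_, ?_,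
          ⟨u ++ [a], d ++ f a (update e x u), ?_, hd', rfl⟩, ?_⟩
        · have := hq a
          omega
        · rw [hS]
          refine Prog.Run.seq (Prog.Run.load _ _ _) (Prog.Run.seq hr ?_)
          rw [if_pos hc]
          exact hr'
        · simp only [List.length_append, List.length_cons, List.length_nil] at hu ⊢
          omega
        · simp [St]
      · rw [if_neg hc] at hd'
        refine ⟨(none, none), _, 1 + (t + 1), ?_, ?_,
          ⟨u, d ++ f a (update e x u), ?_, hd', rfl⟩, ?_⟩
        · have := hq a
          omega
        · rw [hS]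
          refine Prog.Run.seq (Prog.Run.load _ _ _) (Prog.Run.seq hr ?_)
          rw [if_neg hc]
          exact Prog.skip_run _ _
        · simp only [List.length_cons] at hu ⊢
          omega
        · simp [St])
    (e y) v1 (St [] [] o [] (fun z => (e z).reverse) (update T x (e y))) (by simp [St])
    ⟨[], [], by simp, rfl, by
      simp only [List.reverse_nil, List.nil_append]
      rw [← hV0]⟩
  simp only [eachWord, List.append_nil] at hd2
  subst hd2
  obtain ⟨v3, t3, ht3, hr3⟩ := clearV_run x (setA v2 none)
    ((eachWord c (fun a u => f a (update e x u)) [] (e y)).reverse ++ o)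
    (update (fun z => (e z).reverse) x u2.reverse) (update T x [])
  have hT0 : update T x [] = T := by
    rw [← hTx, Function.update_eq_self]
  rw [Function.update_idem, ← hV0, hT0] at hr3
  rw [hT0] at hr2
  have h4 := Prog.Run.seq hr1 (Prog.Run.seq hr2 (Prog.Run.seq hr3
    (Prog.Run.load (fun _ => (none, none)) _ _)))
  refine ⟨_, ?_, h4⟩
  have l1 : t1 ≤ (e y).reverse.length * (2 * Fintype.card A + 7) + 4 := ht1
  have l2 : t2 ≤ (e y).length * ((∑ a, q a).eval N + 2 + Fintype.card A + 2) + 2 := ht2
  have l3 : t3 ≤ (update (fun z => (e z).reverse) x u2.reverse x).length *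
    (Fintype.card A + 3) + 2 := ht3
  rw [Function.update_self, List.length_reverse] at l3
  rw [List.length_reverse] at l1
  have l4 : u2.length ≤ N := by
    have := hN y
    simp only [List.length_nil] at hu2
    omega
  have l5 : (e y).length * (2 * Fintype.card A + 7) ≤ N * (2 * Fintype.card A + 7) :=
    Nat.mul_le_mul_right _ (hN y)
  have l6 : (e y).length * ((∑ a, q a).eval N + 2 + Fintype.card A + 2) ≤
    N * ((∑ a, q a).eval N + (Fintype.card A + 4)) := by
    have : (∑ a, q a).eval N + 2 + Fintype.card A + 2 =
      (∑ a, q a).eval N + (Fintype.card A + 4) := by ring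
    rw [this]
    exact Nat.mul_le_mul_right _ (hN y)
  have l7 : u2.length * (Fintype.card A + 3) ≤ N * (Fintype.card A + 3) :=
    Nat.mul_le_mul_right _ l4
  simp only [Polynomial.eval_add, Polynomial.eval_mul, Polynomial.eval_X,
    Polynomial.eval_natCast, Nat.cast_id]
  omega

theorem eachWord_const {β : Type} (c : A → Bool) (g : A → List β) : ∀ (u w : List A),
    eachWord c (fun a _ => g a) u w = w.flatMap g
  | _, [] => rfl
  | u, a :: l => by
    rw [eachWord, eachWord_const c g _ l, List.flatMap_cons]

/-- print `g a` for each letter `a` of the word `e y`; the variable `z` is used internally -/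
theorem Prints.flatMap [Fintype A] {s : Set X} (y z : X) (hy : y ≠ z) (hz : z ∉ s)
    (g : A → List B) : Prints s (fun e => (e y).flatMap g) := by
  refine (Prints.each hy hz (fun _ => false) (fun a => Prints.word _ (g a))).congr ?_
  intro e _
  rw [eachWord_const]

/-- print the words `f i e` one after the other, for `i` in a fixed list -/
theorem Prints.list {s : Set X} {ι : Type} {f : ι → (X → List A) → List B} :
    ∀ (L : List ι), (∀ i ∈ L, Prints s (f i)) → Prints s (fun e => L.flatMap (fun i => f i e))
  | [], _ => Prints.word s []
  | i :: L, h => (Prints.seq (h i (by simp)) (Prints.list L (fun j hj => h j (by simp [hj])))).congr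
    (by intro e _; rw [List.flatMap_cons])

end Gen

/-! ### The machine -/

section Machine

theorem run_length_le {K : Type} [DecidableEq K] {Γ : K → Type} {σ : Type} {p : Prog Γ σ} {v : σ}
    {S : ∀ k, List (Γ k)} {v' : σ} {S' : ∀ k, List (Γ k)} {t : ℕ}
    (h : Prog.Run p v S v' S' t) (k : K) : (S' k).length ≤ (S k).length + t := by
  induction h with
  | push k' f v S =>
    by_cases hk : k = k'
    · subst hk
      simp
    · simp [hk]
  | pop k' f v S =>
    by_cases hk : k = k'
    · subst hk
      simp only [update_self, List.length_tail]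
      omega
    · simp [hk]
  | load f v S => omega
  | seq _ _ ih1 ih2 => omega
  | ite_true _ _ ih => omega
  | ite_false _ _ ih => omega
  | loop_false _ _ => omega
  | loop_true _ _ _ ih1 ih2 => omega

variable {A B X : Type} [DecidableEq X]

/-- move the input to the variable `x₀` -/
noncomputable def inputProg [Fintype A] (x₀ : X) : WProg A B X :=
  forLetters Stk.inp getA setA (fun a => .push (Stk.V x₀) (fun _ => a))

theorem inputProg_run [Fintype A] (x₀ : X) (w : List A) :
    ∃ v' t, t ≤ w.length * (Fintype.card A + 3) + 2 ∧
      Prog.Run (inputProg x₀) ((none, none) : Mem A B) (St w [] [] [] (fun _ => []) (fun _ => []))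
        v' (St [] [] [] [] (update (fun _ => []) x₀ w.reverse) (fun _ => [])) t := by
  obtain ⟨v1, S1, t1, ht1, hr1, ⟨d, hd, rfl⟩, -⟩ := forLetters_run
    (Γ := SAlph A B (X := X)) Stk.inp getA setA
    (fun _ _ => rfl) (fun a => .push (Stk.V x₀) (fun _ => a))
    (fun l S => ∃ d, d ++ l = w ∧
      S = St l [] [] [] (update (fun _ => []) x₀ d.reverse) (fun _ => [])) 1
    (by
      rintro a l v S ⟨d, hd, rfl⟩ -
      refine ⟨_, _, _, le_refl _, Prog.Run.push _ _ _ _, ⟨d ++ [a], by simpa using hd, ?_⟩, ?_⟩
      · rw [St_inp, St_V]
        simp [St]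
      · rw [St_inp, St_V]
        simp [St])
    w (none, none) (St w [] [] [] (fun _ => []) (fun _ => [])) rfl
    ⟨[], rfl, by
      congr 1
      exact (Function.update_eq_self x₀ _).symm⟩
  rw [List.append_nil] at hd
  subst hd
  refine ⟨_, _, ?_, hr1⟩
  change t1 ≤ d.length * (1 + Fintype.card A + 2) + 2 at ht1
  have e : d.length * (Fintype.card A + 3) = d.length * (1 + Fintype.card A + 2) := by ring
  omega

/-- move the output to the final stack -/
noncomputable def outputProg [Fintype B] : WProg A B X :=
  forLetters Stk.out getB setB (fun a => .push Stk.fin (fun _ => a))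

theorem outputProg_run [Fintype B] (v : Mem A B) (u : List B) :
    ∃ v' t, t ≤ u.length * (Fintype.card B + 3) + 2 ∧
      Prog.Run (outputProg : WProg A B X) v
        (St [] [] u.reverse [] (fun _ => []) (fun _ => []))
        v' (St [] [] [] u (fun _ => []) (fun _ => [])) t := by
  obtain ⟨v1, S1, t1, ht1, hr1, ⟨d, hd, rfl⟩, -⟩ := forLetters_run
    (Γ := SAlph A B (X := X)) Stk.out getB setB
    (fun _ _ => rfl) (fun a => .push Stk.fin (fun _ => a))
    (fun l S => ∃ d, d ++ l = u.reverse ∧
      S = St [] [] l d.reverse (fun _ => []) (fun _ => [])) 1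
    (by
      rintro a l v S ⟨d, hd, rfl⟩ -
      refine ⟨_, _, _, le_refl _, Prog.Run.push _ _ _ _, ⟨d ++ [a], by simpa using hd, ?_⟩, ?_⟩
      · rw [St_out, St_fin]
        simp [St]
      · rw [St_out, St_fin]
        simp [St])
    u.reverse v (St [] [] u.reverse [] (fun _ => []) (fun _ => [])) rfl
    ⟨[], rfl, rfl⟩
  rw [List.append_nil] at hd
  subst hd
  rw [List.reverse_reverse] at hr1
  refine ⟨_, _, ?_, hr1⟩
  change t1 ≤ u.reverse.length * (1 + Fintype.card B + 2) + 2 at ht1
  rw [List.length_reverse] at ht1
  have e : u.length * (Fintype.card B + 3) = u.length * (1 + Fintype.card B + 2) := by ring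
  omega

theorem St_init (w : List A) :
    (update (fun _ => []) Stk.inp w : ∀ k : Stk X, List (SAlph A B k)) =
      St w [] [] [] (fun _ => []) (fun _ => []) := by
  funext k
  cases k <;> simp [update, St]

theorem St_final (u : List B) :
    (update (fun _ => []) Stk.fin u : ∀ k : Stk X, List (SAlph A B k)) =
      St [] [] [] u (fun _ => []) (fun _ => []) := by
  funext k
  cases k <;> simp [update, St]

/-- Functions given by generators are computable in polynomial time. -/
theorem Prints.computable [Fintype A] [Fintype B] [Fintype X] {x₀ : X}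
    {f : (X → List A) → List B} (hf : Prints {x₀} f) {α β : Type} (ea : α → List A)
    (eb : β → List B) (F : α → β) (h : ∀ a, eb (F a) = f (update (fun _ => []) x₀ (ea a))) :
    Nonempty (TM2ComputableInPolyTime ea eb F) := by
  obtain ⟨p, q, H⟩ := hf
  refine ⟨Prog.computable ea eb F ((none, none) : Mem A B) (Stk.inp : Stk X) Stk.fin
    (.seq (inputProg x₀) (.seq (.load (fun _ => (none, none))) (.seq p
      (.seq (clearV x₀) (.seq outputProg (.load (fun _ => (none, none))))))))
    (Equiv.refl A) (Equiv.refl B)
    (Polynomial.X * ((Fintype.card A + 3 : ℕ) : Polynomial ℕ) + q +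
      Polynomial.X * ((Fintype.card A + 3 : ℕ) : Polynomial ℕ) +
      q * ((Fintype.card B + 3 : ℕ) : Polynomial ℕ) + ((8 : ℕ) : Polynomial ℕ)) ?_⟩
  intro a
  obtain ⟨v1, t1, ht1, hr1⟩ := inputProg_run (B := B) x₀ (ea a)
  have hV : (fun z => (update (fun _ => []) x₀ (ea a) z).reverse) =
      update (fun _ => []) x₀ (ea a).reverse := by
    funext z
    by_cases hz : z = x₀
    · subst hz
      simp
    · simp [hz]
  obtain ⟨t2, ht2, hr2⟩ := H (ea a).length (update (fun _ => []) x₀ (ea a)) (fun _ => []) []
    (by
      intro z
      by_cases hz : z = x₀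
      · subst hz
        simp
      · simp [hz])
    (by
      intro z hz
      have hz' : z ≠ x₀ := fun h => hz (by simp [h])
      simp [hz'])
  rw [hV, ← h a, List.append_nil] at hr2
  obtain ⟨v3, t3, ht3, hr3⟩ := clearV_run x₀ ((none, none) : Mem A B) (eb (F a)).reverse
    (update (fun _ => []) x₀ (ea a).reverse) (fun _ => [])
  have hV0 : update (fun _ : X => ([] : List A)) x₀ [] = fun _ => [] :=
    Function.update_eq_self x₀ _
  rw [Function.update_idem, hV0] at hr3
  obtain ⟨v4, t4, ht4, hr4⟩ := outputProg_run (X := X) v3 (eb (F a))
  have hlen : (eb (F a)).length ≤ t2 := by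
    have := run_length_le hr2 Stk.out
    simpa [St] using this
  have h5 := Prog.Run.seq hr1 (Prog.Run.seq (Prog.Run.load (fun _ => (none, none)) _ _)
    (Prog.Run.seq hr2 (Prog.Run.seq hr3 (Prog.Run.seq hr4
      (Prog.Run.load (fun _ => (none, none)) _ _)))))
  refine ⟨t1 + (1 + (t2 + (t3 + (t4 + 1)))), ?_, ?_⟩
  rotate_left
  · simp only [Equiv.refl_symm, Equiv.coe_refl, List.map_id]
    rw [St_init, St_final]
    exact h5
  · rw [Function.update_self, List.length_reverse] at ht3
    have l4 : (eb (F a)).length * (Fintype.card B + 3) ≤
        q.eval (ea a).length * (Fintype.card B + 3) := Nat.mul_le_mul_right _ (by omega)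
    simp only [Polynomial.eval_add, Polynomial.eval_mul, Polynomial.eval_X,
      Polynomial.eval_natCast, Nat.cast_id]
    omega

end Machine

end Pool.Agent.Common_CookLevin
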